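import Pool.Agent.Q261.DC.WTS
import Pool.Agent.Y63.AWC.Wt
import Pool.Agent.Q17.AM.Stm3

/-!
# The number of weights as a sum over subgroups
-/

set_option autoImplicit false

open scoped Classical

noncomputable section

namespace Pool.Agent.Q154.AM

open Pool.Agent.H254R3.IN hiding NN
open Pool.Agent.Y63.KR
open Pool.Agent.Q17.AM
open Pool.Agent.Q17.DC
open Pool.Agent.Q261.DC (cN wt_conj)

/-- the number of the weights of `B` with the subgroup `Q` -/
def nwt {G : Type} [Group G] (p : ℕ) (O : ValuationSubring ℂ) (B : Set (G → ℂ))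
    (Q : Subgroup G) : ℕ := Nat.card {φ : NN Q → ℂ // IsWt p O B Q φ}

/-- conjugacy of subgroups -/
def sgS (G : Type) [Group G] : Setoid (Subgroup G) where
  r P R := ∃ g : G, conjSub g P = R
  iseqv :=
    { refl := fun P => ⟨1, conjSub_one P⟩
      symm := by
        rintro P R ⟨g, rfl⟩
        exact ⟨g⁻¹, by rw [← conjSub_mul, inv_mul_cancel, conjSub_one]⟩
      trans := by
        rintro P R S ⟨g, rfl⟩ ⟨k, rfl⟩
        exact ⟨k * g, conjSub_mul k g P⟩ }

section

variable {G : Type} [Group G] {p : ℕ} {O : ValuationSubring ℂ} {B : Set (G → ℂ)}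

lemma finite_irr (L : Type) [Group L] [Finite L] : {θ : L → ℂ | IsIrr θ}.Finite := by
  have : Fintype L := Fintype.ofFinite L
  exact Pool.Agent.Helper884.IC.irr_finite (G := L)

instance finite_wt [Finite G] (Q : Subgroup G) : Finite {φ : NN Q → ℂ // IsWt p O B Q φ} :=
  Set.Finite.subset (finite_irr (NN Q)) fun _ hφ => IsWt.irr hφ

lemma nwt_le [Finite G] (Q : Subgroup G) (g : G) :
    nwt p O B Q ≤ nwt p O B (conjSub g Q) := by
  unfold nwt
  refine Nat.card_le_card_of_injective
    (fun φ : {φ : NN Q → ℂ // IsWt p O B Q φ} =>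
      (⟨fun x => φ.1 (cN g Q x), wt_conj φ.2 g⟩ :
        {φ : NN (conjSub g Q) → ℂ // IsWt p O B (conjSub g Q) φ})) ?_
  intro φ φ' h
  apply Subtype.ext
  funext x
  have h1 := congrFun (congrArg Subtype.val h) ((cN g Q).symm x)
  simp only [MulEquiv.apply_symm_apply] at h1
  exact h1

lemma nwt_conj [Finite G] (Q : Subgroup G) (g : G) :
    nwt p O B (conjSub g Q) = nwt p O B Q := by
  refine le_antisymm ?_ (nwt_le Q g)
  have h1 := nwt_le (p := p) (O := O) (B := B) (conjSub g Q) g⁻¹
  rwa [← conjSub_mul, inv_mul_cancel, conjSub_one] at h1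

lemma nwt_rel [Finite G] {Q R : Subgroup G} (h : (sgS G).r Q R) :
    nwt p O B Q = nwt p O B R := by
  obtain ⟨g, rfl⟩ := h
  rw [nwt_conj]

lemma card_NN_conj (Q : Subgroup G) (g : G) : Nat.card (NN (conjSub g Q)) = Nat.card (NN Q) :=
  Nat.card_congr (cN g Q).toEquiv

/-- the number of the weights, summed over the classes of subgroups -/
theorem nW_classes [Finite G] [Fintype (Quotient (sgS G))] :
    nW p O B = ∑ c : Quotient (sgS G), nwt p O B c.out := by
  unfold nwt
  rw [← Nat.card_sigma]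
  unfold nW
  symm
  refine Nat.card_eq_of_bijective (fun w : (c : Quotient (sgS G)) ×
      {φ : NN c.out → ℂ // IsWt p O B c.out φ} =>
      (Quotient.mk (wtS p O B) ⟨⟨w.1.out, w.2.1⟩, w.2.2⟩ : Quotient (wtS p O B))) ⟨?_, ?_⟩
  · rintro ⟨c, φ, w⟩ ⟨c', φ', w'⟩ h
    have h1 : (wtS p O B).r ⟨⟨c.out, φ⟩, w⟩ ⟨⟨c'.out, φ'⟩, w'⟩ := Quotient.exact h
    obtain ⟨g, hg, hφ⟩ := h1
    change c'.out = conjSub g c.out at hg
    have hc : c = c' := by
      rw [← Quotient.out_eq c, ← Quotient.out_eq c']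
      exact Quotient.sound ⟨g, hg.symm⟩
    subst hc
    have hgN : g ∈ NN c.out := Pool.Agent.Q261.DC.mem_NN.mpr hg.symm
    have hφφ : φ = φ' := by
      funext x
      have h2 := hφ x ⟨g * x * g⁻¹, (NN c.out).mul_mem ((NN c.out).mul_mem hgN x.2)
        ((NN c.out).inv_mem hgN)⟩ rfl
      have h3 := w'.irr.conj x ⟨g, hgN⟩
      change φ' ⟨g * x * g⁻¹, _⟩ = φ x at h2
      rw [← h2, ← h3]
      rfl
    subst hφφ
    rfl
  · intro q
    induction q using Quotient.inductionOn with | _ y =>
    obtain ⟨⟨Q, φ⟩, w⟩ := y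
    obtain ⟨g, hg⟩ : ∃ g : G, conjSub g Q = (Quotient.mk (sgS G) Q).out := by
      have h1 : (sgS G).r Q (Quotient.mk (sgS G) Q).out :=
        Quotient.exact (Quotient.out_eq (Quotient.mk (sgS G) Q)).symm
      exact h1
    have key : ∃ φ' : NN (Quotient.mk (sgS G) Q).out → ℂ,
        IsWt p O B (Quotient.mk (sgS G) Q).out φ' ∧
        ∀ (x : NN Q) (x' : NN (Quotient.mk (sgS G) Q).out), (x' : G) = g * x * g⁻¹ →
          φ' x' = φ x := by
      rw [← hg]
      refine ⟨fun x => φ (cN g Q x), wt_conj w g, fun x x' hx => ?_⟩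
      change φ (cN g Q x') = φ x
      congr 1
      apply Subtype.ext
      change g⁻¹ * (x' : G) * g = x
      rw [hx]
      group
    obtain ⟨φ', w', h'⟩ := key
    refine ⟨⟨Quotient.mk (sgS G) Q, φ', w'⟩, ?_⟩
    refine (Quotient.sound (s := wtS p O B) ?_).symm
    exact ⟨g, hg.symm, h'⟩

/-- the sum of a class function over the subgroups -/
theorem sum_subgroups [Finite G] [Fintype (Subgroup G)] [Fintype (Quotient (sgS G))]
    (f : Subgroup G → ℕ) (hf : ∀ a b, (sgS G).r a b → f a = f b) :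
    Nat.card G * ∑ c : Quotient (sgS G), f c.out = ∑ P : Subgroup G, Nat.card (NN P) * f P := by
  let _ : MulAction G (Subgroup G) :=
    { smul := fun g P => conjSub g P
      one_smul := conjSub_one
      mul_smul := conjSub_mul }
  have h := Pool.Agent.Y63.AWC.orbit_sum (G := G) (sgS G) (fun a b => Iff.rfl) f hf
  rw [finsum_eq_sum_of_fintype] at h
  rw [h]
  refine Finset.sum_congr rfl fun P _ => ?_
  congr 1
  refine Nat.card_congr (Equiv.subtypeEquivRight fun g => ?_)
  rw [MulAction.mem_stabilizer_iff]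
  exact Pool.Agent.Q261.DC.mem_NN.symm

theorem nW_sum [Finite G] [Fintype (Subgroup G)] :
    Nat.card G * nW p O B = ∑ P : Subgroup G, Nat.card (NN P) * nwt p O B P := by
  haveI : Fintype (Quotient (sgS G)) := Fintype.ofFinite _
  rw [nW_classes, sum_subgroups _ fun a b h => nwt_rel h]

/-- the subgroups of a given class -/
theorem sum_class [Finite G] [Fintype (Subgroup G)] [Fintype (Quotient (sgS G))]
    (c : Quotient (sgS G)) :
    ∑ P : Subgroup G, Nat.card (NN P) * (if Quotient.mk (sgS G) P = c then 1 else 0) =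
      Nat.card G := by
  rw [← sum_subgroups (fun P => if Quotient.mk (sgS G) P = c then 1 else 0)]
  · rw [Finset.sum_eq_single c]
    · rw [Quotient.out_eq, if_pos rfl, mul_one]
    · intro b _ hb
      rw [Quotient.out_eq, if_neg hb]
    · intro h
      exact absurd (Finset.mem_univ c) h
  · intro a b h
    have h1 : Quotient.mk (sgS G) a = Quotient.mk (sgS G) b := Quotient.sound h
    rw [h1]

end

end Pool.Agent.Q154.AM
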