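import Pool.Agent.Q154.AM.Wti
import Pool.Agent.Q154.AM.Nwt

/-!
# Subgroups of the base group with equal components
-/

set_option autoImplicit false

open scoped Classical

noncomputable section

namespace Pool.Agent.Q154.AM

open Pool.Agent.H254R3.IN hiding NN
open Pool.Agent.Y63.KR
open Pool.Agent.Q17.WR
open Pool.Agent.Q17.AM
open Pool.Agent.Q17.DC

/-- averages of characters over subgroups -/
lemma avg {L : Type} [Group L] [Fintype L] {θ : L → ℂ} (hθ : IsIrr θ) (P : Subgroup L) :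
    ∃ m n : ℕ, (n : ℂ) = θ 1 ∧ 0 < n ∧ m ≤ n ∧ ∑ g : P, θ g = Nat.card P * m ∧
      (m = n → ∀ g ∈ P, θ g = θ 1) := by
  obtain ⟨n, hn0, hn⟩ := hθ.deg
  obtain ⟨V, _, _, _, ρ, hr, rfl⟩ := hθ
  let σ : Representation ℂ P V := ρ.comp P.subtype
  have hc : (Nat.card P : ℂ) ≠ 0 := by exact_mod_cast Nat.card_pos.ne'
  haveI : Invertible (Nat.card P : ℂ) := invertibleOfNonzero hc
  have h1 := σ.card_inv_mul_sum_char_eq_finrank
  have hn2 : n = Module.finrank ℂ V := by
    rw [ρ.char_one] at hn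
    exact_mod_cast hn
  refine ⟨Module.finrank ℂ (Representation.invariants σ), n, hn, hn0, ?_, ?_, ?_⟩
  · rw [hn2]
    exact Submodule.finrank_le _
  · rw [← h1, mul_inv_cancel_left₀ hc]
    rfl
  · intro h g hg
    rw [hn2] at h
    have h5 : Representation.invariants σ = ⊤ := Submodule.eq_top_of_finrank_eq h
    have h6 : ρ g = 1 := by
      ext v
      have h7 : v ∈ Representation.invariants σ := by rw [h5]; exact Submodule.mem_top
      exact h7 ⟨g, hg⟩
    change LinearMap.trace ℂ V (ρ g) = LinearMap.trace ℂ V (ρ 1)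
    have h7 : ρ 1 = 1 := map_one ρ
    rw [h6, h7]

section

variable {G : Type} [Group G] {p r : ℕ} [Fact r.Prime]

/-- the normaliser of a product of equal subgroups -/
def eA (P : Subgroup G) : Wc (NN P) r ≃* NN (Pw fun _ : Cy r => P) where
  toFun x := ⟨⟨fun ω => (x.left ω : G), x.right⟩, (mem_NN_Pw _ _).mpr fun ω =>
    conjSub_eq_iff.mpr (x.left ω).2⟩
  invFun y := ⟨fun ω => ⟨y.1.left ω, conjSub_eq_iff.mp ((mem_NN_Pw _ _).mp y.2 ω)⟩, y.1.right⟩
  left_inv x := rfl
  right_inv y := rfl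
  map_mul' x y := by
    apply Subtype.ext
    refine SemidirectProduct.ext (funext fun ω => ?_) rfl
    rfl

lemma eA_right (P : Subgroup G) (x : Wc (NN P) r) : (eA P x : Wc G r).right = x.right := rfl

lemma eA_left (P : Subgroup G) (x : Wc (NN P) r) (ω : Cy r) :
    (eA P x : Wc G r).left ω = (x.left ω : G) := rfl

variable {P : Subgroup G} {φ : NN (Pw fun _ : Cy r => P) → ℂ} {f : Cy r → NN P → ℂ}

/-- the values on the base group -/
def Vl (φ : NN (Pw fun _ : Cy r => P) → ℂ) (f : Cy r → NN P → ℂ) : Prop :=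
  ∀ y : Wc (NN P) r, y.right = 1 →
    (r : ℂ) * (φ (eA P y) / φ 1) = ∑ b : Cy r, ∏ ω, f (b * ω) (y.left ω) / f (b * ω) 1

lemma ex_A (hv : Vl φ f) {y : Wc G r} (hy : y.right = 1) :
    (r : ℂ) * ex φ y = ∑ b : Cy r, ∏ ω, ex (f (b * ω)) (y.left ω) := by
  by_cases hm : y ∈ NN (Pw fun _ : Cy r => P)
  · have h2 := (mem_NN_base hy (fun _ : Cy r => P)).mp hm
    have h3 := hv ⟨fun ω => ⟨y.left ω, h2 ω⟩, 1⟩ rfl
    have h5 : eA P (⟨fun ω => ⟨y.left ω, h2 ω⟩, 1⟩ : Wc (NN P) r) = ⟨y, hm⟩ :=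
      Subtype.ext (SemidirectProduct.ext rfl hy.symm)
    rw [h5] at h3
    unfold ex
    rw [dif_pos hm, h3]
    refine Finset.sum_congr rfl fun b _ => Finset.prod_congr rfl fun ω _ => ?_
    rw [dif_pos (h2 ω)]
  · have h2 : ∃ ω, y.left ω ∉ NN P := by
      by_contra hc
      push Not at hc
      exact hm ((mem_NN_base hy (fun _ : Cy r => P)).mpr hc)
    obtain ⟨ω, hω⟩ := h2
    unfold ex
    rw [dif_neg hm, mul_zero]
    symm
    refine Finset.sum_eq_zero fun b _ => ?_
    exact Finset.prod_eq_zero (Finset.mem_univ ω) (by rw [dif_neg hω])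

lemma hS_A [Fintype G] (hv : Vl φ f) (x : Wc G r) (hx : x.right = 1) (n : ℕ)
    (hn : Nat.card {y : Wc G r // IsConj x y} =
      n * ∏ ω, Nat.card {y : G // IsConj (x.left ω) y}) :
    (r : ℂ) * Ic φ x = n * ∑ a : Cy r, ∏ ω, Ic (f ω) (x.left (a * ω)) := by
  haveI : Fintype (Wc G r) := Fintype.ofFinite _
  apply mul_left_cancel₀ (r_ne (r := r))
  rw [Ic_eq, Finset.mul_sum, Finset.sum_congr rfl fun y hy =>
    ex_A hv ((conj_base hx).mp (Finset.mem_filter.mp hy).2).1, Finset.sum_comm, Finset.mul_sum]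
  have h1 : ∀ b : Cy r, (r : ℂ) * ∑ y ∈ Finset.univ.filter (fun y : Wc G r => IsConj x y),
      ∏ ω, ex (f (b * ω)) (y.left ω) = n * ∑ a : Cy r, ∏ ω, Ic (f ω) (x.left (a * ω)) := by
    intro b
    rw [key x hx n hn (fun ω => ex (f (b * ω)))]
    congr 1
    refine Fintype.sum_equiv (Equiv.mulRight b⁻¹) _ _ fun a => ?_
    refine Fintype.prod_equiv (Equiv.mulLeft b) _ _ fun ω => ?_
    change _ = Ic (f (b * ω)) (x.left (a * b⁻¹ * (b * ω)))
    rw [Ic_eq, mul_assoc, inv_mul_cancel_left]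
  rw [Finset.sum_congr rfl fun b _ => h1 b, Finset.sum_const, Finset.card_univ, card_Cy,
    nsmul_eq_mul]

lemma prod_one_rot (f : Cy r → NN P → ℂ) (b : Cy r) : ∏ ω, f (b * ω) 1 = ∏ ω, f ω 1 :=
  prod_rot (fun ω => f ω 1) b

lemma nch_one (h : (fun x => φ (eA P x)) = nch f) : φ 1 = r * ∏ ω, f ω 1 := by
  have h2 := congrFun h 1
  simp only [map_one] at h2
  rw [h2]
  change (if (1 : Cy r) = 1 then ∑ a : Cy r, ∏ ω, f (a * ω) 1 else 0) = _
  rw [if_pos rfl, Finset.sum_congr rfl fun a _ => prod_one_rot f a, Finset.sum_const,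
    Finset.card_univ, card_Cy, nsmul_eq_mul]

lemma nch_val (h : (fun x => φ (eA P x)) = nch f) (y : Wc (NN P) r) (hy : y.right = 1) :
    φ (eA P y) = ∑ a : Cy r, ∏ ω, f (a * ω) (y.left ω) := by
  have h2 := congrFun h y
  change φ (eA P y) = (if y.right = 1 then ∑ a : Cy r, ∏ ω, f (a * ω) (y.left ω) else 0) at h2
  rw [h2, if_pos hy]

lemma Vl_nch (hf : ∀ ω, IsIrr (f ω)) (h : (fun x => φ (eA P x)) = nch f) : Vl φ f := by
  intro y hy
  have hD : ∏ ω, f ω 1 ≠ 0 := Finset.prod_ne_zero_iff.mpr fun ω _ => (hf ω).one_ne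
  rw [nch_one h, nch_val h y hy, mul_div_assoc', mul_div_mul_left _ _ (r_ne (r := r)),
    Finset.sum_div]
  refine Finset.sum_congr rfl fun b _ => ?_
  rw [Finset.prod_div_distrib, prod_one_rot]

variable {θ : NN P → ℂ} {l : Cy r →* ℂˣ}

lemma cch_val (h : (fun x => φ (eA P x)) = cch θ l) (y : Wc (NN P) r) (hy : y.right = 1) :
    φ (eA P y) = ∏ ω, θ (y.left ω) := by
  have h2 := congrFun h y
  change φ (eA P y) = (if y.right = 1 then ∏ ω, θ (y.left ω) else
    (l y.right : ℂ) * θ ((y ^ r).left 1)) at h2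
  rw [h2, if_pos hy]

lemma cch_one (h : (fun x => φ (eA P x)) = cch θ l) : φ 1 = ∏ _ω : Cy r, θ 1 := by
  have h1 := cch_val h 1 rfl
  rw [map_one] at h1
  rw [h1]
  rfl

lemma Vl_cch (h : (fun x => φ (eA P x)) = cch θ l) :
    Vl φ (fun _ => θ) := by
  intro y hy
  rw [cch_one h, cch_val h y hy, Finset.sum_const, Finset.card_univ, card_Cy, nsmul_eq_mul,
    Finset.prod_div_distrib]

variable [Fintype G]

/-- the kernels in the case of `nch` -/
lemma ker_nch (hf : ∀ ω, IsIrr (f ω)) (h : (fun x => φ (eA P x)) = nch f) :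
    (∀ x : NN (Pw fun _ : Cy r => P), (x : Wc G r) ∈ (Pw fun _ : Cy r => P) → φ x = φ 1) ↔
      ∀ ω, ∀ x : NN P, (x : G) ∈ P → f ω x = f ω 1 := by
  have hD : ∏ ω, f ω 1 ≠ 0 := Finset.prod_ne_zero_iff.mpr fun ω _ => (hf ω).one_ne
  constructor
  · intro hk
    have h1 : ∀ x : NN P, (x : G) ∈ P → ∑ a : Cy r, f a x / f a 1 = r := by
      intro x hx
      have h2 := hk (eA P (sg 1 x)) (by
        refine ⟨rfl, fun ω' => ?_⟩
        change ((Pi.mulSingle 1 x : Cy r → NN P) ω' : G) ∈ P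
        by_cases h3 : ω' = 1
        · subst h3
          rw [Pi.mulSingle_eq_same]
          exact hx
        · rw [Pi.mulSingle_eq_of_ne h3]
          exact P.one_mem)
      rw [nch_val h _ rfl, nch_one h] at h2
      have h3 : ∀ a : Cy r, ∏ ω, f (a * ω) ((sg 1 x : Wc (NN P) r).left ω) =
          (f a x / f a 1) * ∏ ω, f ω 1 := by
        intro a
        rw [← prod_one_rot f a, ← Finset.mul_prod_erase Finset.univ _ (Finset.mem_univ 1),
          ← Finset.mul_prod_erase Finset.univ (fun ω => f (a * ω) 1) (Finset.mem_univ 1)]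
        have h4 : ∏ ω ∈ Finset.univ.erase 1, f (a * ω) ((sg 1 x : Wc (NN P) r).left ω) =
            ∏ ω ∈ Finset.univ.erase 1, f (a * ω) 1 :=
          Finset.prod_congr rfl fun ω hω => by
            change f (a * ω) ((Pi.mulSingle 1 x : Cy r → NN P) ω) = _
            rw [Pi.mulSingle_eq_of_ne (Finset.ne_of_mem_erase hω)]
        rw [h4]
        change f (a * 1) ((Pi.mulSingle 1 x : Cy r → NN P) 1) * _ = _
        rw [Pi.mulSingle_eq_same, mul_one, ← mul_assoc, div_mul_cancel₀ _ (hf a).one_ne]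
      rw [Finset.sum_congr rfl fun a _ => h3 a, ← Finset.sum_mul] at h2
      exact mul_right_cancel₀ hD h2
    choose m n hn hn0 hmn hsum hc using fun ω => avg (hf ω) (P.subgroupOf (NN P))
    have h2 : ∑ g : P.subgroupOf (NN P), ∑ a : Cy r, f a g / f a 1 =
        Nat.card (P.subgroupOf (NN P)) * r := by
      have h3 : ∀ g : P.subgroupOf (NN P), ∑ a : Cy r, f a g / f a 1 = r :=
        fun g => h1 g.1 g.2
      rw [Finset.sum_congr rfl fun g _ => h3 g, Finset.sum_const, Finset.card_univ,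
        nsmul_eq_mul, Nat.card_eq_fintype_card]
    rw [Finset.sum_comm] at h2
    have h3 : ∀ a : Cy r, ∑ g : P.subgroupOf (NN P), f a g / f a 1 =
        Nat.card (P.subgroupOf (NN P)) * ((m a : ℂ) / n a) := by
      intro a
      rw [← Finset.sum_div, hsum a, ← hn a, mul_div_assoc]
    rw [Finset.sum_congr rfl fun a _ => h3 a, ← Finset.mul_sum] at h2
    have h4 : ∑ a : Cy r, ((m a : ℂ) / n a) = r :=
      mul_left_cancel₀ (by exact_mod_cast Nat.card_pos.ne') h2
    have h5 : ∑ a : Cy r, ((m a : ℝ) / n a) = ∑ _a : Cy r, (1 : ℝ) := by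
      rw [Finset.sum_const, Finset.card_univ, card_Cy, nsmul_eq_mul, mul_one]
      apply Complex.ofReal_injective
      push_cast
      exact h4
    have h6 : ∀ a ∈ (Finset.univ : Finset (Cy r)), (m a : ℝ) / n a ≤ 1 := by
      intro a _
      rw [div_le_one (by exact_mod_cast hn0 a)]
      exact_mod_cast hmn a
    have h7 := (Finset.sum_eq_sum_iff_of_le h6).mp h5
    intro ω x hx
    refine hc ω ?_ x hx
    have h8 := h7 ω (Finset.mem_univ ω)
    rw [div_eq_one_iff_eq (by exact_mod_cast (hn0 ω).ne')] at h8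
    exact_mod_cast h8
  · intro hk y hy
    obtain ⟨m, rfl⟩ := (eA P).surjective y
    rw [nch_val h m hy.1, nch_one h]
    have h2 : ∀ a : Cy r, ∏ ω, f (a * ω) (m.left ω) = ∏ ω, f ω 1 := by
      intro a
      rw [← prod_one_rot f a]
      exact Finset.prod_congr rfl fun ω _ => hk _ _ (hy.2 ω)
    rw [Finset.sum_congr rfl fun a _ => h2 a, Finset.sum_const, Finset.card_univ, card_Cy,
      nsmul_eq_mul]

/-- the kernels in the case of `cch` -/
lemma ker_cch (hθ : IsIrr θ) (h : (fun x => φ (eA P x)) = cch θ l) :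
    (∀ x : NN (Pw fun _ : Cy r => P), (x : Wc G r) ∈ (Pw fun _ : Cy r => P) → φ x = φ 1) ↔
      ∀ _ω : Cy r, ∀ x : NN P, (x : G) ∈ P → θ x = θ 1 := by
  constructor
  · intro hk _ x hx
    have h2 := hk (eA P (sg 1 x)) (by
      refine ⟨rfl, fun ω' => ?_⟩
      change ((Pi.mulSingle 1 x : Cy r → NN P) ω' : G) ∈ P
      by_cases h3 : ω' = 1
      · subst h3
        rw [Pi.mulSingle_eq_same]
        exact hx
      · rw [Pi.mulSingle_eq_of_ne h3]
        exact P.one_mem)
    rw [cch_val h _ rfl, cch_one h, ← Finset.mul_prod_erase Finset.univ _ (Finset.mem_univ 1),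
      ← Finset.mul_prod_erase Finset.univ (fun _ : Cy r => θ 1) (Finset.mem_univ 1)] at h2
    have h4 : ∏ ω ∈ Finset.univ.erase 1, θ ((sg 1 x : Wc (NN P) r).left ω) =
        ∏ ω ∈ Finset.univ.erase (1 : Cy r), θ 1 :=
      Finset.prod_congr rfl fun ω hω => by
        change θ ((Pi.mulSingle 1 x : Cy r → NN P) ω) = _
        rw [Pi.mulSingle_eq_of_ne (Finset.ne_of_mem_erase hω)]
    rw [h4] at h2
    have h5 := mul_right_cancel₀ (Finset.prod_ne_zero_iff.mpr fun ω' _ => hθ.one_ne) h2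
    change θ ((Pi.mulSingle 1 x : Cy r → NN P) 1) = θ 1 at h5
    rwa [Pi.mulSingle_eq_same] at h5
  · intro hk y hy
    obtain ⟨m, rfl⟩ := (eA P).surjective y
    rw [cch_val h m hy.1, cch_one h]
    exact Finset.prod_congr rfl fun ω _ => hk 1 _ (hy.2 ω)

variable [Fact p.Prime] {O : ValuationSubring ℂ}

/-- the characters of weights have positive defect -/
lemma Pos_wt (hpO : (p : ℂ) ∈ O.nonunits) {B : Set (G → ℂ)} (hB : IsBlock O B) (hPos : Pos O B)
    (P : Subgroup G) : Pos O {θ : NN P → ℂ | IsWt p O B P θ} := by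
  intro θ w
  have w : IsWt p O B P θ := w
  obtain ⟨n, hn, hfac⟩ := w.defect
  have hn0 : n ≠ 0 := by
    rintro rfl
    apply w.irr.one_ne
    rw [← hn]
    simp
  by_cases hP : P = ⊥
  · subst hP
    have htop : ∀ g : G, g ∈ NN (⊥ : Subgroup G) := by
      intro g
      change g ∈ Subgroup.normalizer ((⊥ : Subgroup G) : Set G)
      rw [Subgroup.normalizer_eq_top]
      exact Subgroup.mem_top g
    let j : G ≃* NN (⊥ : Subgroup G) :=
      { toFun := fun g => ⟨g, htop g⟩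
        invFun := fun y => y.1
        left_inv := fun g => rfl
        right_inv := fun y => rfl
        map_mul' := fun a b => rfl }
    have hχ : IsIrr (fun g => θ (j g)) := Pool.Agent.Q222.TC.irr_comp j w.irr
    have hI : ∀ x, Ic θ x = omega (fun g => θ (j g)) x := by
      intro x
      rw [Ic_eq, ← Om_ind hχ x]
      unfold Om ind
      rw [Finset.sum_div, Finset.sum_filter]
      refine Finset.sum_congr rfl fun z _ => ?_
      split_ifs with h
      · unfold ex
        rw [dif_pos (htop z), one_mul]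
        rfl
      · rw [zero_mul, zero_div]
    obtain ⟨χ, hχB⟩ := hB.nonempty
    have hmem : (fun g => θ (j g)) ∈ B := by
      by_contra hnot
      obtain ⟨x, hx⟩ := hB.exists_ne hχB hχ hnot
      apply hx
      rw [red_eq_iff ((hB.irr χ hχB).omega_mem O x) (hχ.omega_mem O x), ← hI]
      exact w.ind χ hχB x
    have h1 := hPos _ hmem
    have h2 : Nat.card (NN (⊥ : Subgroup G)) = Nat.card G := (Nat.card_congr j.toEquiv).symm
    rw [h2]
    exact h1
  · have hdvd : n ∣ Nat.card (NN P) := by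
      haveI : Fintype (NN P) := Fintype.ofFinite _
      exact Pool.Agent.Y63.AWC.deg_dvd (G := NN P) w.irr hn.symm
    obtain ⟨m, hm⟩ := hdvd
    have hm0 : m ≠ 0 := by
      rintro rfl
      rw [mul_zero] at hm
      exact Nat.card_pos.ne' hm
    have h1 : (Nat.card (NN P) : ℂ) / θ 1 = m := by
      rw [← hn, hm]
      push_cast
      rw [mul_div_cancel_left₀]
      exact_mod_cast hn0
    have h2 : m.factorization p = (Nat.card P).factorization p := by
      have h3 : (Nat.card (NN P)).factorization p =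
        (Nat.card P).factorization p + n.factorization p := hfac
      rw [hm, Nat.factorization_mul hn0 hm0, Finsupp.add_apply] at h3
      omega
    have h3 : p ∣ m := by
      obtain ⟨k, hk⟩ := IsPGroup.iff_card.mp w.isp
      have hk0 : k ≠ 0 := by
        rintro rfl
        rw [pow_zero] at hk
        exact hP (Subgroup.card_eq_one.mp hk)
      rw [hk, Nat.Prime.factorization_pow (Fact.out : p.Prime), Finsupp.single_eq_same] at h2
      by_contra hc
      rw [Nat.factorization_eq_zero_of_not_dvd hc] at h2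
      exact hk0 h2.symm
    rw [h1]
    have h4 := (red_nat_eq_zero_iff hpO m).mpr h3
    exact (red_eq_zero_iff (natCast_mem' m)).mp h4

/-- the induced central character outside the base group -/
lemma hR_A (hpO : (p : ℂ) ∈ O.nonunits) (ccl : S_CCL) {X : Set (NN P → ℂ)}
    (hX : ∀ θ ∈ X, IsIrr θ) (hPX : Pos O X) (hφ : IsIrr φ)
    (h : (fun x => φ (eA P x)) ∈ LX (r := r) X) (x : Wc G r) (hx : x.right ≠ 1) :
    Ic φ x ∈ O.nonunits := by
  haveI : Fintype (Wc (NN P) r) := Fintype.ofFinite _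
  haveI : Fintype (NN P) := Fintype.ofFinite _
  haveI : Fintype (Wc G r) := Fintype.ofFinite _
  set φ₁ : Wc (NN P) r → ℂ := fun x => φ (eA P x) with hφ₁
  have hi : IsIrr φ₁ := Pool.Agent.Q222.TC.irr_comp (eA P) hφ
  set u : Wc (NN P) r → ℂ := fun y => if IsConj x (eA P y : Wc G r) then 1 else 0 with hu
  have hucl : IsCl u := by
    intro g y
    have h1 : IsConj x (eA P (y * g * y⁻¹) : Wc G r) ↔ IsConj x (eA P g : Wc G r) := by
      have h2 : IsConj (eA P g : Wc G r) (eA P (y * g * y⁻¹) : Wc G r) := by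
        refine isConj_iff.mpr ⟨(eA P y : Wc G r), ?_⟩
        rw [map_mul, map_mul, map_inv]
        rfl
      exact ⟨fun h => h.trans h2.symm, fun h => h.trans h2⟩
    change (if IsConj x (eA P (y * g * y⁻¹) : Wc G r) then (1 : ℂ) else 0) =
      if IsConj x (eA P g : Wc G r) then 1 else 0
    simp only [h1]
  have huO : ∀ g, u g ∈ O := by
    intro g
    rw [hu]
    change (if IsConj x (eA P g : Wc G r) then (1 : ℂ) else 0) ∈ O
    split_ifs
    · exact O.one_mem
    · exact O.zero_mem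
  have hIc : Ic φ x = Om u φ₁ := by
    unfold Ic Om
    rw [finsum_eq_sum_of_fintype, Finset.sum_div]
    symm
    have h1 : ∑ y : Wc (NN P) r, u y * φ₁ y / φ₁ 1 =
        ∑ y ∈ Finset.univ.filter (fun y : Wc (NN P) r => IsConj x (eA P y : Wc G r)),
          φ₁ y / φ₁ 1 := by
      rw [Finset.sum_filter]
      refine Finset.sum_congr rfl fun y _ => ?_
      change (if IsConj x (eA P y : Wc G r) then (1 : ℂ) else 0) * φ₁ y / φ₁ 1 = _
      split_ifs
      · rw [one_mul]
      · rw [zero_mul, zero_div]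
    rw [h1]
    refine Finset.sum_bij (fun y hy => ⟨eA P y, (Finset.mem_filter.mp hy).2⟩) ?_ ?_ ?_ ?_
    · intro y _
      exact Finset.mem_univ _
    · intro y _ y' _ h
      exact (eA P).injective (congrArg Subtype.val h)
    · rintro ⟨y, hy⟩ _
      obtain ⟨m, rfl⟩ := (eA P).surjective y
      exact ⟨m, Finset.mem_filter.mpr ⟨Finset.mem_univ _, hy⟩, rfl⟩
    · intro y _
      change φ (eA P y) / φ (eA P 1) = φ (eA P y) / φ 1
      rw [map_one]
  obtain ⟨h1, h2⟩ := red_Om hi hucl huO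
  rw [hIc, ← red_eq_zero_iff h1, h2]
  refine Finset.sum_eq_zero fun K _ => ?_
  by_cases hK : IsConj x (eA P (rep K) : Wc G r)
  · have h3 : (rep K).right ≠ 1 := by
      obtain ⟨t, ht⟩ := isConj_iff.mp hK
      have h4 : (eA P (rep K) : Wc G r).right = x.right := by
        rw [← ht, Pool.Agent.Q166.AM.conj_right]
      rw [← eA_right P (rep K), h4]
      exact hx
    rw [red_eq_zero (LX_out hpO ccl hX hPX h h3), mul_zero]
  · have h3 : u (rep K) = 0 := if_neg hK
    rw [h3, red_zero, zero_mul]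

lemma card_Wc (H : Type) [Group H] [Finite H] :
    Nat.card (Wc H r) = r * ∏ _ω : Cy r, Nat.card H := by
  have h1 : Nat.card (Wc H r) = Nat.card ((Cy r → H) × Cy r) :=
    Nat.card_congr
      { toFun := fun x => (x.left, x.right)
        invFun := fun y => ⟨y.1, y.2⟩
        left_inv := fun x => rfl
        right_inv := fun y => rfl }
  rw [h1, Nat.card_prod, Nat.card_pi, Nat.card_eq_fintype_card (α := Cy r), card_Cy, mul_comm]

/-- the weights with subgroup `Pw (fun _ => P)` -/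
theorem wt_A (hpO : (p : ℂ) ∈ O.nonunits) (hpr : p ≠ r) (cls : S_CLS) (ccl : S_CCL)
    (blk : S_BLK) {B : Set (G → ℂ)} (hB : IsBlock O B) (hPos : Pos O B)
    {P : Subgroup G} {φ : NN (Pw fun _ : Cy r => P) → ℂ} (hφ : IsIrr φ) :
    IsWt p O (LX (r := r) B) (Pw fun _ : Cy r => P) φ ↔
      (fun x => φ (eA P x)) ∈ LX (r := r) {θ : NN P → ℂ | IsWt p O B P θ} := by
  haveI : Fintype (NN P) := Fintype.ofFinite _
  have hp1 : ¬ p ∣ 1 := (Fact.out : p.Prime).not_dvd_one
  have hrr : ¬ p ∣ r := fun h =>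
    hpr ((Nat.prime_dvd_prime_iff_eq (Fact.out : p.Prime) (Fact.out : r.Prime)).mp h)
  have hcard : Nat.card (NN (Pw fun _ : Cy r => P)) = r * ∏ _ω : Cy r, Nat.card (NN P) := by
    rw [← card_Wc]
    exact (Nat.card_congr (eA P).toEquiv).symm
  have hX : ∀ θ ∈ {θ : NN P → ℂ | IsWt p O B P θ}, IsIrr θ := fun θ w => IsWt.irr w
  have hPX := Pos_wt hpO hB hPos P
  have hnch : ∀ f : Cy r → NN P → ℂ, (∀ ω, IsIrr (f ω)) → Ncn f →
      (fun x => φ (eA P x)) = nch f →
      (IsWt p O (LX (r := r) B) (Pw fun _ : Cy r => P) φ ↔ ∀ ω, IsWt p O B P (f ω)) := by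
    intro f hf hn h
    exact wt_iff hpO hpr cls ccl blk hB hPos hφ hf hrr hrr (nch_one h) hcard (ker_nch hf h)
      (hS_A (Vl_nch hf h)) fun w => hR_A hpO ccl hX hPX hφ (Or.inl ⟨f, w, hn, h⟩)
  have hcch : ∀ (θ : NN P → ℂ) (l : Cy r →* ℂˣ), IsIrr θ →
      (fun x => φ (eA P x)) = cch θ l →
      (IsWt p O (LX (r := r) B) (Pw fun _ : Cy r => P) φ ↔ ∀ _ω : Cy r, IsWt p O B P θ) := by
    intro θ l hθ h
    exact wt_iff hpO hpr cls ccl blk hB hPos hφ (fun _ => hθ) hp1 hrr
      (by rw [cch_one h]; simp) hcard (ker_cch hθ h)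
      (hS_A (Vl_cch h)) fun w => hR_A hpO ccl hX hPX hφ (Or.inr ⟨θ, w 1, l, h⟩)
  constructor
  · intro w
    rcases (cls (NN P) r).2.2.1 _ (Pool.Agent.Q222.TC.irr_comp (eA P) hφ) with
      ⟨f, hf, hn, h⟩ | ⟨θ, hθ, l, h⟩
    · exact Or.inl ⟨f, (hnch f hf hn h).mp w, hn, h⟩
    · exact Or.inr ⟨θ, (hcch θ l hθ h).mp w 1, l, h⟩
  · rintro (⟨f, hf, hn, h⟩ | ⟨θ, hθ, l, h⟩)
    · exact (hnch f (fun ω => hX _ (hf ω)) hn h).mpr hf
    · exact (hcch θ l (hX _ hθ) h).mpr fun _ => hθ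

/-- the number of weights -/
theorem nwt_A (hpO : (p : ℂ) ∈ O.nonunits) (hpr : p ≠ r) (cls : S_CLS) (ccl : S_CCL)
    (blk : S_BLK) (num : S_NUM) {B : Set (G → ℂ)} (hB : IsBlock O B) (hPos : Pos O B)
    (P : Subgroup G) :
    (r : ℤ) * (nwt p O (LX (r := r) B) (Pw fun _ : Cy r => P) : ℤ) =
      (nwt p O B P : ℤ) ^ r + ((r : ℤ) ^ 2 - 1) * (nwt p O B P : ℤ) ∧
    Nat.card (NN (Pw fun _ : Cy r => P)) = r * ∏ _ω : Cy r, Nat.card (NN P) := by
  haveI : Fintype (NN P) := Fintype.ofFinite _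
  constructor
  · have h1 : nwt p O (LX (r := r) B) (Pw fun _ : Cy r => P) =
        (LX (r := r) {θ : NN P → ℂ | IsWt p O B P θ}).ncard := by
      unfold nwt
      rw [← Nat.card_coe_set_eq]
      have hirr : ∀ ψ ∈ LX (r := r) {θ : NN P → ℂ | IsWt p O B P θ}, IsIrr ψ := by
        rintro ψ (⟨f, hf, hn, rfl⟩ | ⟨θ, hθ, l, rfl⟩)
        · exact (cls (NN P) r).1 f (fun ω => IsWt.irr (hf ω)) hn
        · exact (cls (NN P) r).2.1 θ (IsWt.irr hθ) l
      refine Nat.card_eq_of_bijective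
        (fun φ : {φ : NN (Pw fun _ : Cy r => P) → ℂ //
            IsWt p O (LX (r := r) B) (Pw fun _ : Cy r => P) φ} =>
          (⟨fun x => φ.1 (eA P x), (wt_A hpO hpr cls ccl blk hB hPos φ.2.irr).mp φ.2⟩ :
            LX (r := r) {θ : NN P → ℂ | IsWt p O B P θ})) ⟨?_, ?_⟩
      · intro φ φ' h
        apply Subtype.ext
        funext y
        obtain ⟨x, rfl⟩ := (eA P).surjective y
        exact congrFun (congrArg Subtype.val h) x
      · rintro ⟨ψ, hψ⟩
        have hi : IsIrr (fun y => ψ ((eA P).symm y)) :=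
          Pool.Agent.Q222.TC.irr_comp (eA P).symm (hirr ψ hψ)
        have h2 : (fun x => (fun y => ψ ((eA P).symm y)) (eA P x)) = ψ := by
          funext x
          simp only [MulEquiv.symm_apply_apply]
        refine ⟨⟨fun y => ψ ((eA P).symm y), ?_⟩, Subtype.ext h2⟩
        rw [wt_A hpO hpr cls ccl blk hB hPos hi, h2]
        exact hψ
    have h2 := num (NN P) r {θ : NN P → ℂ | IsWt p O B P θ} (fun χ hχ => IsWt.irr hχ)
      (RingEquiv.refl ℂ) (fun χ => Iff.rfl)
    have h3 : ∀ {A : Type} [Group A] (Y : Set (A → ℂ)), Fxd Y (RingEquiv.refl ℂ) = Y := by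
      intro A _ Y
      ext χ
      exact ⟨fun h => h.1, fun h => ⟨h, fun _ => rfl⟩⟩
    have h4 : (RingEquiv.refl ℂ : ℂ ≃+* ℂ) ^ r = RingEquiv.refl ℂ := one_pow r
    have hpos : ∀ ζ : ℂ, ζ ^ r = 1 → (RingEquiv.refl ℂ) ζ = ζ := fun _ _ => rfl
    rw [h4, h3, h3, if_pos hpos] at h2
    have h5 : {θ : NN P → ℂ | IsWt p O B P θ}.ncard = nwt p O B P := by
      unfold nwt
      rw [← Nat.card_coe_set_eq]
      rfl
    rw [h5] at h2
    rw [h1, h2]
    ring
  · rw [← card_Wc]
    exact (Nat.card_congr (eA P).toEquiv).symm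

end

end Pool.Agent.Q154.AM
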