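import Pool.Agent.Q150.WR.ZPR
import Pool.Agent.Q16.WR.ZRP
import Pool.Agent.Q176.DC.DZV
import Pool.Agent.Q222.TC.TBC

/-!
# Irreducible characters of products of different groups
-/

set_option autoImplicit false

open scoped Classical

noncomputable section

namespace Pool.Agent.Q154.AM

open Pool.Agent.H254R3.IN (IsIrr)
open Pool.Agent.Q17.WR (prf)

/-- pullback along a surjective homomorphism -/
lemma irr_surj {J K : Type} [Group J] [Finite J] [Group K] (π : J →* K)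
    (hπ : Function.Surjective π) {χ : K → ℂ} (h : IsIrr χ) : IsIrr (fun x => χ (π x)) := by
  have : Fintype J := Fintype.ofFinite J
  obtain ⟨V, _, _, _, ρ, hr, rfl⟩ := h
  refine ⟨V, _, _, inferInstance, ρ.comp π, ?_, rfl⟩
  exact (Pool.Agent.Helper884.PK.irr_pull π hπ ρ (ρ.comp π) fun g => rfl).2 hr

/-- the converse -/
lemma irr_of_surj {J K : Type} [Group J] [Finite J] [Group K] (π : J →* K)
    (hπ : Function.Surjective π) {χ : K → ℂ} (h : IsIrr (fun x => χ (π x))) : IsIrr χ := by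
  haveI : Fintype J := Fintype.ofFinite J
  obtain ⟨φ', h1, h2⟩ := Pool.Agent.Q176.DC.DZV.quot_char π.ker h (by
    intro x hx
    rw [MonoidHom.mem_ker] at hx
    change χ (π x) = χ (π 1)
    rw [hx, map_one])
  have : Finite K := Finite.of_surjective π hπ
  have h3 := irr_surj (QuotientGroup.quotientKerEquivOfSurjective π hπ).symm.toMonoidHom
    (QuotientGroup.quotientKerEquivOfSurjective π hπ).symm.surjective h1
  have h4 : (fun x => φ' ((QuotientGroup.quotientKerEquivOfSurjective π hπ).symm.toMonoidHom x)) =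
      χ := by
    funext x
    obtain ⟨y, rfl⟩ := hπ x
    have h5 : (QuotientGroup.quotientKerEquivOfSurjective π hπ).symm.toMonoidHom (π y) =
        (QuotientGroup.mk y : J ⧸ π.ker) := by
      rw [MulEquiv.coe_toMonoidHom, MulEquiv.symm_apply_eq]
      rfl
    rw [h5, h2]
  rwa [h4] at h3

section

variable {Ω : Type} [Fintype Ω] {H : Ω → Type} [∀ ω, Group (H ω)] [∀ ω, Finite (H ω)]

/-- product of functions on the factors -/
def pdf (f : ∀ ω, H ω → ℂ) (x : ∀ ω, H ω) : ℂ := ∏ ω, f ω (x ω)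

/-- the diagonal -/
def dg (H : Ω → Type) [∀ ω, Group (H ω)] : (Ω → ∀ ω, H ω) →* (∀ ω, H ω) where
  toFun x := fun ω => x ω ω
  map_one' := rfl
  map_mul' _ _ := rfl

lemma dg_surj : Function.Surjective (dg H) := fun k => ⟨fun _ => k, rfl⟩

lemma zpr (K : Type) [Group K] [Fintype K] :
    (∀ f : Ω → K → ℂ, (∀ ω, IsIrr (f ω)) → IsIrr (prf f)) ∧
    (∀ θ : (Ω → K) → ℂ, IsIrr θ → ∃ f : Ω → K → ℂ, (∀ ω, IsIrr (f ω)) ∧ θ = prf f) ∧
    ∀ f f' : Ω → K → ℂ, (∀ ω, IsIrr (f ω)) → (∀ ω, IsIrr (f' ω)) → prf f = prf f' → f = f' :=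
  Pool.Agent.Q150.WR.t_ZPR Pool.Agent.Q16.WR.t_ZRP K Ω

lemma eval_surj (ω : Ω) : Function.Surjective (Pi.evalMonoidHom H ω) := by
  intro h
  refine ⟨Pi.mulSingle ω h, ?_⟩
  change (Pi.mulSingle ω h : ∀ ω, H ω) ω = h
  rw [Pi.mulSingle_eq_same]

theorem pd_irr (f : ∀ ω, H ω → ℂ) (hf : ∀ ω, IsIrr (f ω)) : IsIrr (pdf f) := by
  haveI : Fintype (∀ ω, H ω) := Fintype.ofFinite _
  haveI : Finite (Ω → ∀ ω, H ω) := inferInstance
  refine irr_of_surj (dg H) dg_surj ?_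
  exact (zpr (Ω := Ω) (∀ ω, H ω)).1 (fun ω k => f ω (k ω)) fun ω =>
    irr_surj (Pi.evalMonoidHom H ω) (eval_surj ω) (hf ω)

theorem pd_surj (χ : (∀ ω, H ω) → ℂ) (hχ : IsIrr χ) :
    ∃ f : ∀ ω, H ω → ℂ, (∀ ω, IsIrr (f ω)) ∧ χ = pdf f := by
  haveI : Fintype (∀ ω, H ω) := Fintype.ofFinite _
  obtain ⟨F, hF, h⟩ := (zpr (Ω := Ω) (∀ ω, H ω)).2.1 _ (irr_surj (dg H) dg_surj hχ)
  have key : ∀ (ω : Ω) (k : ∀ ω, H ω), F ω k * ∏ ω' ∈ Finset.univ.erase ω, F ω' 1 =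
      χ (Pi.mulSingle ω (k ω)) := by
    intro ω k
    have h1 := congrFun h (Pi.mulSingle ω k)
    change χ (fun ω' => (Pi.mulSingle ω k : Ω → ∀ ω, H ω) ω' ω') = ∏ ω', F ω' ((Pi.mulSingle ω k : Ω → ∀ ω, H ω) ω') at h1
    rw [← Finset.mul_prod_erase Finset.univ _ (Finset.mem_univ ω), Pi.mulSingle_eq_same] at h1
    have h2 : (fun ω' => (Pi.mulSingle ω k : Ω → ∀ ω, H ω) ω' ω') = Pi.mulSingle ω (k ω) := by
      funext ω'
      by_cases h3 : ω' = ω
      · subst h3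
        rw [Pi.mulSingle_eq_same, Pi.mulSingle_eq_same]
      · rw [Pi.mulSingle_eq_of_ne h3, Pi.mulSingle_eq_of_ne h3]
        rfl
    rw [h2] at h1
    rw [h1]
    congr 1
    refine Finset.prod_congr rfl fun ω' hω' => ?_
    rw [Pi.mulSingle_eq_of_ne (Finset.ne_of_mem_erase hω')]
  have hne : ∀ ω : Ω, ∏ ω' ∈ Finset.univ.erase ω, F ω' 1 ≠ 0 := fun ω =>
    Finset.prod_ne_zero_iff.mpr fun ω' _ => (hF ω').one_ne
  have h1 : ∀ (ω : Ω) (k : ∀ ω, H ω), F ω k = F ω (Pi.mulSingle ω (k ω)) := by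
    intro ω k
    apply mul_right_cancel₀ (hne ω)
    rw [key, key, Pi.mulSingle_eq_same]
  refine ⟨fun ω h => F ω (Pi.mulSingle ω h), fun ω => ?_, ?_⟩
  · refine irr_of_surj (Pi.evalMonoidHom H ω) (eval_surj ω) ?_
    have h2 : (fun k : ∀ ω, H ω => F ω (Pi.mulSingle ω ((Pi.evalMonoidHom H ω) k))) = F ω := by
      funext k
      exact (h1 ω k).symm
    rw [h2]
    exact hF ω
  · funext k
    have h2 := congrFun h (fun _ => k)
    change χ k = ∏ ω, F ω k at h2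
    rw [h2]
    exact Finset.prod_congr rfl fun ω _ => h1 ω k

theorem pd_inj (f f' : ∀ ω, H ω → ℂ) (hf : ∀ ω, IsIrr (f ω)) (hf' : ∀ ω, IsIrr (f' ω))
    (h : pdf f = pdf f') : f = f' := by
  haveI : Fintype (∀ ω, H ω) := Fintype.ofFinite _
  have h1 := (zpr (Ω := Ω) (∀ ω, H ω)).2.2 (fun ω k => f ω (k ω)) (fun ω k => f' ω (k ω))
    (fun ω => irr_surj (Pi.evalMonoidHom H ω) (eval_surj ω) (hf ω))
    (fun ω => irr_surj (Pi.evalMonoidHom H ω) (eval_surj ω) (hf' ω)) (by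
      funext x
      exact congrFun h (dg H x))
  funext ω x
  have h2 := congrFun (congrFun h1 ω) (Pi.mulSingle ω x)
  simp only [Pi.mulSingle_eq_same] at h2
  exact h2

end

end Pool.Agent.Q154.AM
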