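import Pool.Agent.Q154.AM.Wti
import Pool.Agent.Q154.AM.Prd
import Pool.Agent.Q154.AM.Nwt

/-!
# Subgroups of the base group whose normaliser is in the base group
-/

set_option autoImplicit false

open scoped Classical

noncomputable section

namespace Pool.Agent.Q154.AM

open Pool.Agent.H254R3.IN hiding NN
open Pool.Agent.Y63.KR
open Pool.Agent.Q17.WR
open Pool.Agent.Q17.AM
open Pool.Agent.Q17.DC

section

variable {G : Type} [Group G] {p r : ℕ} [Fact r.Prime] {Q' : Cy r → Subgroup G}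

/-- the normaliser of `Pw Q'` if it is in the base group -/
def eB (hN : ∀ y ∈ NN (Pw Q'), y.right = 1) : (∀ ω, NN (Q' ω)) ≃* NN (Pw Q') where
  toFun h := ⟨bse fun ω => (h ω : G), (mem_NN_base rfl Q').mpr fun ω => (h ω).2⟩
  invFun y := fun ω => ⟨y.1.left ω, (mem_NN_base (hN y.1 y.2) Q').mp y.2 ω⟩
  left_inv h := rfl
  right_inv y := Subtype.ext (SemidirectProduct.ext rfl (hN y.1 y.2).symm)
  map_mul' h h' := by
    apply Subtype.ext
    refine SemidirectProduct.ext (funext fun ω => ?_) (mul_one (1 : Cy r)).symm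
    change (h ω : G) * (h' ω : G) = (h ω : G) * (h' ((1 : Cy r)⁻¹ * ω) : G)
    rw [inv_one, one_mul]

/-- values of the normalised character -/
lemma ex_B (hN : ∀ y ∈ NN (Pw Q'), y.right = 1) {φ : NN (Pw Q') → ℂ} {f : ∀ ω, NN (Q' ω) → ℂ}
    (h : (fun x => φ (eB hN x)) = pdf f) {y : Wc G r} (hy : y.right = 1) :
    ex φ y = ∏ ω, ex (f ω) (y.left ω) := by
  have h1 : φ 1 = ∏ ω, f ω 1 := by
    have h2 := congrFun h 1
    simp only [map_one] at h2
    rw [h2]
    rfl
  by_cases hm : y ∈ NN (Pw Q')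
  · have h2 := (mem_NN_base hy Q').mp hm
    unfold ex
    rw [dif_pos hm]
    have h3 : φ ⟨y, hm⟩ = ∏ ω, f ω ⟨y.left ω, h2 ω⟩ := by
      have h4 := congrFun h (fun ω => ⟨y.left ω, h2 ω⟩)
      have h5 : eB hN (fun ω => ⟨y.left ω, h2 ω⟩) = ⟨y, hm⟩ :=
        Subtype.ext (SemidirectProduct.ext rfl hy.symm)
      simp only [h5] at h4
      exact h4
    rw [h3, h1, ← Finset.prod_div_distrib]
    exact Finset.prod_congr rfl fun ω _ => by rw [dif_pos (h2 ω)]
  · have h2 : ∃ ω, y.left ω ∉ NN (Q' ω) := by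
      by_contra hc
      push Not at hc
      exact hm ((mem_NN_base hy Q').mpr hc)
    obtain ⟨ω, hω⟩ := h2
    unfold ex
    rw [dif_neg hm]
    symm
    exact Finset.prod_eq_zero (Finset.mem_univ ω) (by rw [dif_neg hω])

variable [Fact p.Prime] [Fintype G] {O : ValuationSubring ℂ}

lemma wt_B (hpO : (p : ℂ) ∈ O.nonunits) (hpr : p ≠ r) (cls : S_CLS) (ccl : S_CCL)
    (blk : S_BLK) {B : Set (G → ℂ)} (hB : IsBlock O B) (hPos : Pos O B)
    (hN : ∀ y ∈ NN (Pw Q'), y.right = 1) {φ : NN (Pw Q') → ℂ} (hφ : IsIrr φ)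
    {f : ∀ ω, NN (Q' ω) → ℂ} (hf : ∀ ω, IsIrr (f ω)) (h : (fun x => φ (eB hN x)) = pdf f) :
    IsWt p O (LX (r := r) B) (Pw Q') φ ↔ ∀ ω, IsWt p O B (Q' ω) (f ω) := by
  haveI : Fintype (Wc G r) := Fintype.ofFinite _
  have h1 : φ 1 = ∏ ω, f ω 1 := by
    have h2 := congrFun h 1
    simp only [map_one] at h2
    rw [h2]
    rfl
  have hp1 : ¬ p ∣ 1 := (Fact.out : p.Prime).not_dvd_one
  have hval : ∀ m : ∀ ω, NN (Q' ω), φ (eB hN m) = ∏ ω, f ω (m ω) := fun m => congrFun h m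
  refine wt_iff hpO hpr cls ccl blk hB hPos hφ hf hp1 hp1 ?_ ?_ ?_ ?_ ?_
  · rw [h1]
    simp
  · rw [one_mul, ← Nat.card_pi]
    exact (Nat.card_congr (eB hN).toEquiv).symm
  · constructor
    · intro hk ω x hx
      have h2 := hk (eB hN (Pi.mulSingle ω x)) (by
        refine ⟨rfl, fun ω' => ?_⟩
        change ((Pi.mulSingle ω x : ∀ ω, NN (Q' ω)) ω' : G) ∈ Q' ω'
        by_cases h3 : ω' = ω
        · subst h3
          rw [Pi.mulSingle_eq_same]
          exact hx
        · rw [Pi.mulSingle_eq_of_ne h3]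
          exact (Q' ω').one_mem)
      rw [hval, h1, ← Finset.mul_prod_erase Finset.univ _ (Finset.mem_univ ω),
        ← Finset.mul_prod_erase Finset.univ (fun ω => f ω 1) (Finset.mem_univ ω),
        Pi.mulSingle_eq_same] at h2
      have h3 : ∏ ω' ∈ Finset.univ.erase ω, f ω' ((Pi.mulSingle ω x : ∀ ω, NN (Q' ω)) ω') =
          ∏ ω' ∈ Finset.univ.erase ω, f ω' 1 :=
        Finset.prod_congr rfl fun ω' hω' => by
          rw [Pi.mulSingle_eq_of_ne (Finset.ne_of_mem_erase hω')]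
      rw [h3] at h2
      exact mul_right_cancel₀ (Finset.prod_ne_zero_iff.mpr fun ω' _ => (hf ω').one_ne) h2
    · intro hk y hy
      obtain ⟨m, rfl⟩ := (eB hN).surjective y
      rw [hval, h1]
      exact Finset.prod_congr rfl fun ω _ => hk ω (m ω) (hy.2 ω)
  · intro x hx n hn
    rw [Ic_eq]
    have h2 : ∑ y ∈ Finset.univ.filter (fun y : Wc G r => IsConj x y), ex φ y =
        ∑ y ∈ Finset.univ.filter (fun y : Wc G r => IsConj x y), ∏ ω, ex (f ω) (y.left ω) :=
      Finset.sum_congr rfl fun y hy =>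
        ex_B hN h ((conj_base hx).mp (Finset.mem_filter.mp hy).2).1
    rw [h2, key x hx n hn]
    congr 1
    refine Finset.sum_congr rfl fun a _ => Finset.prod_congr rfl fun ω _ => ?_
    rw [Ic_eq]
  · intro _ x hx
    rw [Ic_eq, Finset.sum_eq_zero]
    · exact O.nonunits.zero_mem
    · intro y hy
      unfold ex
      rw [dif_neg]
      intro hm
      obtain ⟨t, ht⟩ := isConj_iff.mp (Finset.mem_filter.mp hy).2
      have h2 := hN y hm
      rw [← ht, Pool.Agent.Q166.AM.conj_right] at h2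
      exact hx h2

/-- the number of weights -/
theorem nwt_B (hpO : (p : ℂ) ∈ O.nonunits) (hpr : p ≠ r) (cls : S_CLS) (ccl : S_CCL)
    (blk : S_BLK) {B : Set (G → ℂ)} (hB : IsBlock O B) (hPos : Pos O B)
    (hN : ∀ y ∈ NN (Pw Q'), y.right = 1) :
    nwt p O (LX (r := r) B) (Pw Q') = ∏ ω, nwt p O B (Q' ω) ∧
    Nat.card (NN (Pw Q')) = ∏ ω, Nat.card (NN (Q' ω)) := by
  constructor
  · unfold nwt
    rw [← Nat.card_pi]
    symm
    refine Nat.card_eq_of_bijective
      (fun F : ∀ ω, {φ : NN (Q' ω) → ℂ // IsWt p O B (Q' ω) φ} =>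
        (⟨fun y => pdf (fun ω => (F ω).1) ((eB hN).symm y), ?_⟩ :
          {φ : NN (Pw Q') → ℂ // IsWt p O (LX (r := r) B) (Pw Q') φ})) ⟨?_, ?_⟩
    · have h1 : IsIrr (fun y => pdf (fun ω => (F ω).1) ((eB hN).symm y)) :=
        Pool.Agent.Q222.TC.irr_comp (eB hN).symm (pd_irr _ fun ω => (F ω).2.irr)
      refine (wt_B hpO hpr cls ccl blk hB hPos hN h1 (fun ω => (F ω).2.irr) ?_).mpr
        fun ω => (F ω).2
      funext x
      simp only [MulEquiv.symm_apply_apply]
    · intro F F' h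
      have h1 : pdf (fun ω => (F ω).1) = pdf (fun ω => (F' ω).1) := by
        funext x
        have h2 := congrFun (congrArg Subtype.val h) (eB hN x)
        simp only [MulEquiv.symm_apply_apply] at h2
        exact h2
      have h2 := pd_inj _ _ (fun ω => (F ω).2.irr) (fun ω => (F' ω).2.irr) h1
      funext ω
      exact Subtype.ext (congrFun h2 ω)
    · rintro ⟨φ, w⟩
      obtain ⟨f, hf, h⟩ := pd_surj (fun x => φ (eB hN x))
        (Pool.Agent.Q222.TC.irr_comp (eB hN) w.irr)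
      have h1 := (wt_B hpO hpr cls ccl blk hB hPos hN w.irr hf h).mp w
      refine ⟨fun ω => ⟨f ω, h1 ω⟩, ?_⟩
      apply Subtype.ext
      funext y
      change pdf f ((eB hN).symm y) = φ y
      rw [← h]
      simp only [MulEquiv.apply_symm_apply]
  · rw [← Nat.card_pi]
    exact (Nat.card_congr (eB hN).toEquiv).symm

end

end Pool.Agent.Q154.AM
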