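import Pool.Agent.Q17.AM.Stm3
import Pool.Agent.Q176.DC.DZV
import Pool.Agent.Q166.AM.TRN
import Pool.Agent.Y63.NV.Infl

/-!
# Job WPQ of project AM (helper17)
-/

set_option autoImplicit false

open scoped Classical

noncomputable section

namespace Pool.Agent.Q154.AM

open Pool.Agent.H254R3.IN hiding NN
open Pool.Agent.Q17.WR
open Pool.Agent.Q17.AM
open Pool.Agent.Q166.AM (mul_left' inv_left' conj_left conj_right)

/-- a normal `p`-subgroup containing the subgroup of a weight is equal to it -/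
lemma le_of_wt {A : Type} [Group A] [Finite A] {p : ℕ} [Fact p.Prime] {Q R : Subgroup A}
    (hQ : Q.Normal) (hR : R.Normal) (hRp : IsPGroup p R) (hQR : Q ≤ R) {φ : A → ℂ}
    (hφ : IsIrr φ) (hker : ∀ x ∈ Q, φ x = φ 1) (hdef : ∃ n : ℕ, (n : ℂ) = φ 1 ∧
      (Nat.card A).factorization p = (Nat.card Q).factorization p + n.factorization p) :
    R ≤ Q := by
  haveI : Fintype A := Fintype.ofFinite A
  haveI := hQ
  by_contra hlt
  refine Pool.Agent.Y63.NV.wtn p A Q R φ hQ hR hRp (lt_of_le_not_ge hQR hlt) ⟨hφ, ?_, ?_⟩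
  · intro q hq x
    obtain ⟨φ', -, hval⟩ := Pool.Agent.Q176.DC.DZV.quot_char Q hφ hker
    rw [← hval, ← hval]
    congr 1
    rw [QuotientGroup.mk_mul, (QuotientGroup.eq_one_iff q).mpr hq, one_mul]
  · obtain ⟨n, hn, h⟩ := hdef
    exact ⟨n, hn.symm, by omega⟩

section

variable {G : Type} [Group G] {r : ℕ} [Fact r.Prime]

instance finite_Wc [Finite G] : Finite (Wc G r) :=
  Finite.of_injective (fun x : Wc G r => (x.left, x.right)) fun x y h =>
    SemidirectProduct.ext (congrArg Prod.fst h) (congrArg Prod.snd h)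

/-- `p`-elements of `Wc G r` are in the base group -/
lemma right_one {p : ℕ} [hp : Fact p.Prime] (hpr : p ≠ r) {x : Wc G r} {k : ℕ}
    (h : x ^ p ^ k = 1) : x.right = 1 := by
  have h1 : x.right ^ p ^ k = 1 := by
    have h2 := congrArg (SemidirectProduct.rightHom : Wc G r →* Cy r) h
    rw [map_pow, map_one] at h2
    exact h2
  have h2 : x.right ^ r = 1 := by
    have h3 : Fintype.card (Cy r) = r := by
      rw [Fintype.card_multiplicative, ZMod.card]
    have h4 := pow_card_eq_one (x := x.right)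
    rwa [h3] at h4
  have h3 : orderOf x.right ∣ p ^ k := orderOf_dvd_of_pow_eq_one h1
  have h4 : orderOf x.right ∣ r := orderOf_dvd_of_pow_eq_one h2
  have hr : r.Prime := Fact.out
  have h5 : Nat.Coprime (p ^ k) r :=
    Nat.Coprime.pow_left k ((Nat.coprime_primes hp.out hr).mpr hpr)
  have h6 : orderOf x.right = 1 := Nat.eq_one_of_dvd_coprimes h5 h3 h4
  exact orderOf_eq_one_iff.mp h6

/-- powers of elements of the base group -/
lemma base_pow {x : Wc G r} (hx : x.right = 1) (n : ℕ) :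
    (x ^ n).right = 1 ∧ ∀ ω, (x ^ n).left ω = (x.left ω) ^ n := by
  induction n with
  | zero => exact ⟨rfl, fun ω => by rw [pow_zero, pow_zero]; rfl⟩
  | succ n ih =>
    rw [pow_succ]
    refine ⟨by rw [SemidirectProduct.mul_right, ih.1, hx, mul_one], fun ω => ?_⟩
    rw [mul_left', ih.1, inv_one, one_mul, ih.2, pow_succ]

/-- the projection of a subgroup of the base group to a factor -/
def prj (Q : Subgroup (Wc G r)) (hQ : ∀ x ∈ Q, x.right = 1) (ω : Cy r) : Subgroup G where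
  carrier := {g | ∃ x ∈ Q, x.left ω = g}
  one_mem' := ⟨1, Q.one_mem, rfl⟩
  mul_mem' := by
    rintro _ _ ⟨x, hx, rfl⟩ ⟨y, hy, rfl⟩
    refine ⟨x * y, Q.mul_mem hx hy, ?_⟩
    rw [mul_left', hQ x hx, inv_one, one_mul]
  inv_mem' := by
    rintro _ ⟨x, hx, rfl⟩
    refine ⟨x⁻¹, Q.inv_mem hx, ?_⟩
    rw [inv_left', hQ x hx, one_mul]

lemma mem_Pw {Q : Cy r → Subgroup G} {x : Wc G r} :
    x ∈ Pw Q ↔ x.right = 1 ∧ ∀ ω, x.left ω ∈ Q ω := Iff.rfl

/-- products of `p`-groups -/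
lemma Pw_isp {p : ℕ} {Q : Cy r → Subgroup G} (h : ∀ ω, IsPGroup p (Q ω)) :
    IsPGroup p (Pw Q) := by
  rintro ⟨x, hx⟩
  rw [mem_Pw] at hx
  choose k hk using fun ω => h ω ⟨x.left ω, hx.2 ω⟩
  refine ⟨∑ ω, k ω, Subtype.ext ?_⟩
  change x ^ p ^ (∑ ω, k ω) = 1
  obtain ⟨h1, h2⟩ := base_pow hx.1 (p ^ (∑ ω, k ω))
  refine SemidirectProduct.ext (funext fun ω => ?_) h1
  rw [h2]
  have h3 : (x.left ω) ^ p ^ k ω = 1 := congrArg Subtype.val (hk ω)
  have h4 : k ω ≤ ∑ ω, k ω := Finset.single_le_sum (fun _ _ => Nat.zero_le _) (Finset.mem_univ ω)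
  obtain ⟨d, hd⟩ := Nat.exists_eq_add_of_le h4
  rw [hd, pow_add, pow_mul, h3, one_pow]
  rfl

end

/-- a `p`-subgroup which contains all elements of a larger `p`-group normalising it -/
lemma eq_of_norm {A : Type} [Group A] [Finite A] {p : ℕ} [Fact p.Prime] {Q R : Subgroup A}
    (hR : IsPGroup p R) (hQR : Q ≤ R)
    (h : ∀ x ∈ R, x ∈ Subgroup.normalizer (Q : Set A) → x ∈ Q) : Q = R := by
  by_contra hne
  have hlt : Q < R := lt_of_le_of_ne hQR hne
  haveI : Group.IsNilpotent R := hR.isNilpotent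
  have hnc : NormalizerCondition R := Group.normalizerCondition_of_isNilpotent
  have h1 : Q.subgroupOf R < ⊤ := by
    rw [lt_top_iff_ne_top]
    intro h2
    rw [Subgroup.subgroupOf_eq_top] at h2
    exact absurd h2 (not_le_of_gt hlt)
  have h3 := hnc _ h1
  obtain ⟨x, hx1, hx2⟩ := SetLike.exists_of_lt h3
  apply hx2
  rw [Subgroup.mem_subgroupOf]
  refine h x x.2 ?_
  rw [Subgroup.mem_normalizer_iff] at hx1 ⊢
  intro y
  by_cases hy : y ∈ R
  · exact hx1 ⟨y, hy⟩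
  · constructor
    · intro h4
      exact absurd (hQR h4) hy
    · intro h4
      exfalso
      apply hy
      have h5 : (x : A) * y * (x : A)⁻¹ ∈ R := hQR h4
      have h6 := R.mul_mem (R.mul_mem (R.inv_mem x.2) h5) x.2
      have h7 : (x : A)⁻¹ * ((x : A) * y * (x : A)⁻¹) * x = y := by group
      rwa [h7] at h6

theorem t_WPQ : S_WPQ := by
  intro G _ _ p r _ _ hpr O hO β Q φ hw
  have hQ1 : ∀ x ∈ Q, x.right = 1 := by
    intro x hx
    obtain ⟨k, hk⟩ := hw.isp ⟨x, hx⟩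
    exact right_one hpr (k := k) (congrArg Subtype.val hk)
  refine ⟨prj Q hQ1, ?_⟩
  have hle : Q ≤ Pw (prj Q hQ1) := fun x hx => ⟨hQ1 x hx, fun ω => ⟨x, hx, rfl⟩⟩
  have hisp : IsPGroup p (Pw (prj Q hQ1)) := by
    refine Pw_isp fun ω => ?_
    rintro ⟨g, x, hx, rfl⟩
    obtain ⟨k, hk⟩ := hw.isp ⟨x, hx⟩
    refine ⟨k, Subtype.ext ?_⟩
    have h1 : x ^ p ^ k = 1 := congrArg Subtype.val hk
    change (x.left ω) ^ p ^ k = 1
    rw [← (base_pow (hQ1 x hx) _).2, h1]
    rfl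
  refine eq_of_norm hisp hle fun x hx hxN => ?_
  have hnorm : ∀ t ∈ Subgroup.normalizer (Q : Set (Wc G r)), ∀ y ∈ Pw (prj Q hQ1),
      t * y * t⁻¹ ∈ Pw (prj Q hQ1) := by
    intro t ht y hy
    rw [mem_Pw] at hy ⊢
    refine ⟨by rw [conj_right, hy.1], fun ω => ?_⟩
    obtain ⟨z, hz, hz'⟩ := hy.2 (t.right⁻¹ * ω)
    refine ⟨t * z * t⁻¹, (Subgroup.mem_normalizer_iff.mp ht z).mp hz, ?_⟩
    rw [conj_left _ _ (hQ1 z hz), conj_left _ _ hy.1, hz']
  have h1 : ((Pw (prj Q hQ1)).subgroupOf (Subgroup.normalizer (Q : Set (Wc G r)))) ≤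
      Q.subgroupOf (Subgroup.normalizer (Q : Set (Wc G r))) := by
    refine le_of_wt (p := p) (φ := φ) ?_ ?_ ?_ ?_ hw.irr ?_ ?_
    · exact Subgroup.normal_in_normalizer
    · refine ⟨fun y hy t => ?_⟩
      rw [Subgroup.mem_subgroupOf] at hy ⊢
      exact hnorm t t.2 y hy
    · exact hisp.comap_of_injective _ (Subgroup.subtype_injective _)
    · intro y hy
      rw [Subgroup.mem_subgroupOf] at hy ⊢
      exact hle hy
    · intro y hy
      exact hw.ker y hy
    · obtain ⟨n, hn, hf⟩ := hw.defect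
      refine ⟨n, hn, ?_⟩
      rw [hf]
      have h2 : Nat.card (Q.subgroupOf (Subgroup.normalizer (Q : Set (Wc G r)))) = Nat.card Q :=
        Nat.card_congr (Subgroup.subgroupOfEquivOfLe Subgroup.le_normalizer).toEquiv
      rw [h2]
  exact h1 (show (⟨x, hxN⟩ : Subgroup.normalizer (Q : Set (Wc G r))) ∈ _ from hx)

end Pool.Agent.Q154.AM
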