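import Pool.Agent.Q154.AM.Key
import Pool.Agent.Q154.AM.WPQ
import Pool.Agent.Q222.TC.TBC
import Pool.Agent.Q38.DC.EXI
import Pool.Agent.H254R3.IN.PI
import Pool.Agent.Q17.DC.Typ

/-!
# Central characters of `Wc G r` and of its subgroups
-/

set_option autoImplicit false

open scoped Classical

noncomputable section

namespace Pool.Agent.Q154.AM

open Pool.Agent.H254R3.IN hiding NN
open Pool.Agent.Y63.KR
open Pool.Agent.Q17.WR
open Pool.Agent.Q17.AM
open Pool.Agent.Q17.DC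

/-- the value at the class sum of `x` of the central character induced from the one of `θ` -/
def Ic {A : Type} [Group A] {L : Subgroup A} (θ : L → ℂ) (x : A) : ℂ :=
  ∑ᶠ y : {y : L // IsConj x (y : A)}, θ y / θ 1

/-- the normalised character, extended by zero -/
def ex {A : Type} [Group A] {L : Subgroup A} (θ : L → ℂ) (z : A) : ℂ :=
  if h : z ∈ L then θ ⟨z, h⟩ / θ 1 else 0

lemma Ic_eq {A : Type} [Group A] [Fintype A] {L : Subgroup A} (θ : L → ℂ) (x : A) :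
    Ic θ x = ∑ z ∈ Finset.univ.filter (fun z => IsConj x z), ex θ z := by
  unfold Ic
  rw [finsum_eq_sum_of_fintype]
  have h1 : ∑ z ∈ Finset.univ.filter (fun z : A => IsConj x z), ex θ z =
      ∑ z ∈ (Finset.univ.filter (fun z : A => IsConj x z)).filter (fun z => z ∈ L), ex θ z := by
    symm
    refine Finset.sum_filter_of_ne fun z _ hz => ?_
    by_contra h
    apply hz
    unfold ex
    rw [dif_neg h]
  rw [h1]
  refine Finset.sum_bij (fun y _ => ((y : L) : A)) ?_ ?_ ?_ ?_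
  · intro y _
    exact Finset.mem_filter.mpr ⟨Finset.mem_filter.mpr ⟨Finset.mem_univ _, y.2⟩, y.1.2⟩
  · intro y _ y' _ h
    exact Subtype.ext (Subtype.ext h)
  · intro z hz
    rw [Finset.mem_filter, Finset.mem_filter] at hz
    exact ⟨⟨⟨z, hz.2⟩, hz.1.2⟩, Finset.mem_univ _, rfl⟩
  · intro y _
    unfold ex
    rw [dif_pos y.1.2]

section

variable {G : Type} [Group G] [Fintype G] {p r : ℕ} [Fact p.Prime] [Fact r.Prime]
  {O : ValuationSubring ℂ}

/-- a character of the normaliser of a `p`-subgroup induces a central character -/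
lemma exi (hpO : (p : ℂ) ∈ O.nonunits) {Q : Subgroup G} (hQ : IsPGroup p Q) {θ : NN Q → ℂ}
    (hθ : IsIrr θ) : ∃ χ : G → ℂ, IsIrr χ ∧ ∀ x, omega χ x - Ic θ x ∈ O.nonunits := by
  obtain ⟨B, hB, h⟩ := Pool.Agent.Q38.DC.t_EXI G p O hpO ⊤ (NN Q) Q le_top hQ
    (fun x => ⟨fun hx => ⟨Subgroup.mem_top x, hx⟩, fun hx => hx.2⟩) θ hθ
  obtain ⟨χ, hχ⟩ := hB.nonempty
  refine ⟨fun g => χ (Subgroup.topEquiv.symm g),
    Pool.Agent.Q222.TC.irr_comp (Subgroup.topEquiv (G := G)).symm (hB.irr χ hχ), fun x => ?_⟩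
  have h1 := h χ hχ (Subgroup.topEquiv.symm x)
  have h2 : omega (fun g => χ (Subgroup.topEquiv.symm g)) x =
      omega χ (Subgroup.topEquiv.symm x) :=
    Pool.Agent.Q239.DC.omega_equiv (Subgroup.topEquiv (G := G)).symm χ x
  rw [h2]
  rw [indc_top] at h1
  exact h1

/-- a member of `LX X` over the family `χ` -/
def psi (χ : Cy r → G → ℂ) : Wc G r → ℂ := if Ncn χ then nch χ else cch (χ 1) 1

lemma const_of {χ : Cy r → G → ℂ} (h : ¬ Ncn χ) (ω : Cy r) : χ ω = χ 1 := by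
  by_contra h1
  exact h ⟨ω, 1, h1⟩

lemma psi_irr (cls : S_CLS) {χ : Cy r → G → ℂ} (h : ∀ ω, IsIrr (χ ω)) : IsIrr (psi χ) := by
  unfold psi
  split_ifs with h1
  · exact (cls G r).1 χ h h1
  · exact (cls G r).2.1 (χ 1) (h 1) 1

lemma psi_mem {B : Set (G → ℂ)} {χ : Cy r → G → ℂ} (h : ∀ ω, χ ω ∈ B) :
    psi χ ∈ LX (r := r) B := by
  unfold psi
  split_ifs with h1
  · exact Or.inl ⟨χ, h, h1, rfl⟩
  · exact Or.inr ⟨χ 1, h 1, 1, rfl⟩

lemma mem_psi (cls : S_CLS) {B : Set (G → ℂ)} (hB : ∀ θ ∈ B, IsIrr θ) {χ : Cy r → G → ℂ}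
    (hχ : ∀ ω, IsIrr (χ ω)) (h : psi χ ∈ LX (r := r) B) (ω : Cy r) : χ ω ∈ B := by
  obtain ⟨-, -, -, c4, c5, c6⟩ := cls G r
  unfold psi at h
  split_ifs at h with h1
  · rcases h with ⟨f, hf, hn, he⟩ | ⟨θ, hθ, l, he⟩
    · obtain ⟨a, ha⟩ := c4 χ f hχ (fun ω => hB _ (hf ω)) h1 he
      have h2 := hf (a⁻¹ * ω)
      rw [ha] at h2
      change χ (a * (a⁻¹ * ω)) ∈ B at h2
      rwa [mul_inv_cancel_left] at h2
    · exact absurd he (c6 χ θ l hχ h1 (hB θ hθ))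
  · rcases h with ⟨f, hf, hn, he⟩ | ⟨θ, hθ, l, he⟩
    · exact absurd he.symm (c6 f (χ 1) 1 (fun ω => hB _ (hf ω)) hn (hχ 1))
    · rw [const_of h1 ω, (c5 (χ 1) θ 1 l (hχ 1) (hB θ hθ) he).1]
      exact hθ

lemma r_ne : (r : ℂ) ≠ 0 := by exact_mod_cast (Fact.out : r.Prime).ne_zero

/-- the central character of `psi χ` on the base group -/
lemma psi_omega {χ : Cy r → G → ℂ} {x : Wc G r} {n : ℕ}
    (h1 : ∀ f : Cy r → G → ℂ, (r : ℂ) * omega (nch f) x =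
      n * ∑ a : Cy r, ∏ ω, omega (f (a * ω)) (x.left ω))
    (h2 : ∀ (θ : G → ℂ) (l : Cy r →* ℂˣ), omega (cch θ l) x = n * ∏ ω, omega θ (x.left ω)) :
    (r : ℂ) * omega (psi χ) x = n * ∑ a : Cy r, ∏ ω, omega (χ ω) (x.left (a * ω)) := by
  unfold psi
  split_ifs with h
  · rw [h1]
    congr 1
    refine Fintype.sum_equiv (Equiv.inv (Cy r)) _ _ fun a => ?_
    refine Fintype.prod_equiv (Equiv.mulLeft a) _ _ fun ω => ?_
    change omega (χ (a * ω)) (x.left ω) = omega (χ (a * ω)) (x.left (a⁻¹ * (a * ω)))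
    rw [inv_mul_cancel_left]
  · rw [h2]
    have h3 : ∀ a : Cy r, ∏ ω, omega (χ ω) (x.left (a * ω)) = ∏ ω, omega (χ 1) (x.left ω) := by
      intro a
      rw [← prod_rot (fun ω => omega (χ 1) (x.left ω)) a]
      exact Finset.prod_congr rfl fun ω _ => by rw [const_of h ω]
    rw [Finset.sum_congr rfl fun a _ => h3 a, Finset.sum_const, Finset.card_univ, card_Cy,
      nsmul_eq_mul]
    ring

lemma red_prod {ι : Type} (s : Finset ι) (f : ι → ℂ) (h : ∀ i ∈ s, f i ∈ O) :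
    ∏ i ∈ s, f i ∈ O ∧ red O (∏ i ∈ s, f i) = ∏ i ∈ s, red O (f i) := by
  induction s using Finset.induction_on with
  | empty =>
    rw [Finset.prod_empty, Finset.prod_empty]
    exact ⟨O.one_mem, red_one⟩
  | insert a s ha ih =>
    have h1 := ih fun i hi => h i (Finset.mem_insert_of_mem hi)
    have h2 := h a (Finset.mem_insert_self a s)
    rw [Finset.prod_insert ha, Finset.prod_insert ha, red_mul h2 h1.1, h1.2]
    exact ⟨O.mul_mem _ _ h2 h1.1, rfl⟩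

/-- the function `S` and the central character of `psi χ` agree on the base group -/
lemma agree (hpO : (p : ℂ) ∈ O.nonunits) (hpr : p ≠ r) (ccl : S_CCL) {Q' : Cy r → Subgroup G}
    {f : ∀ ω, NN (Q' ω) → ℂ} {S : Wc G r → ℂ}
    (hS : ∀ x : Wc G r, x.right = 1 → ∀ n : ℕ, Nat.card {y : Wc G r // IsConj x y} =
      n * ∏ ω, Nat.card {y : G // IsConj (x.left ω) y} →
      (r : ℂ) * S x = n * ∑ a : Cy r, ∏ ω, Ic (f ω) (x.left (a * ω)))
    {χ : Cy r → G → ℂ} (hχ : ∀ ω, IsIrr (χ ω))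
    (hc : ∀ ω x, omega (χ ω) x - Ic (f ω) x ∈ O.nonunits) (hirr : IsIrr (psi χ))
    (x : Wc G r) (hx : x.right = 1) : S x ∈ O ∧ red O (omega (psi χ) x) = red O (S x) := by
  haveI : Fintype (Wc G r) := Fintype.ofFinite _
  obtain ⟨n, hn, -, h1, h2⟩ := (ccl G r).1 x hx
  have h3 := psi_omega (χ := χ) h1 h2
  have h4 := hS x hx n hn
  have hO1 : ∀ ω x, Ic (f ω) x ∈ O ∧ red O (omega (χ ω) x) = red O (Ic (f ω) x) := fun ω x =>
    red_congr ((hχ ω).omega_mem O x) (hc ω x)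
  have hp1 : ∀ a : Cy r, _ := fun a => red_prod (O := O) Finset.univ
    (fun ω => Ic (f ω) (x.left (a * ω))) (fun ω _ => (hO1 ω _).1)
  have hp2 : ∀ a : Cy r, _ := fun a => red_prod (O := O) Finset.univ
    (fun ω => omega (χ ω) (x.left (a * ω))) (fun ω _ => (hχ ω).omega_mem O _)
  have hrr : ¬ p ∣ r := fun h =>
    hpr ((Nat.prime_dvd_prime_iff_eq (Fact.out : p.Prime) (Fact.out : r.Prime)).mp h)
  have hrO : (r : ℂ)⁻¹ ∈ O := nat_inv_mem hpO hrr
  have h5 : (r : ℂ) * S x ∈ O := by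
    rw [h4]
    exact O.mul_mem _ _ (natCast_mem' n) (sum_mem' _ _ fun a _ => (hp1 a).1)
  have h6 : S x ∈ O := by
    have h7 := O.mul_mem _ _ hrO h5
    rwa [inv_mul_cancel_left₀ r_ne] at h7
  refine ⟨h6, ?_⟩
  have h7 : red O ((r : ℂ) * omega (psi χ) x) = red O ((r : ℂ) * S x) := by
    rw [h3, h4, red_mul (natCast_mem' n) (sum_mem' _ _ fun a _ => (hp2 a).1),
      red_mul (natCast_mem' n) (sum_mem' _ _ fun a _ => (hp1 a).1),
      red_sum _ _ fun a _ => (hp2 a).1, red_sum _ _ fun a _ => (hp1 a).1]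
    congr 1
    refine Finset.sum_congr rfl fun a _ => ?_
    rw [(hp2 a).2, (hp1 a).2]
    exact Finset.prod_congr rfl fun ω _ => (hO1 ω _).2
  rw [red_mul (natCast_mem' r) (hirr.omega_mem O x), red_mul (natCast_mem' r) h6] at h7
  refine mul_left_cancel₀ ?_ h7
  intro h0
  exact hrr ((red_nat_eq_zero_iff hpO r).mp h0)

/-- the values on the base group decide about the membership in `LX B` -/
lemma mem_LX (hpO : (p : ℂ) ∈ O.nonunits) (hpr : p ≠ r) (blk : S_BLK) {B : Set (G → ℂ)}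
    (hB : IsBlock O B) (hPos : Pos O B) {ψ χ : Wc G r → ℂ} (hψ : IsIrr ψ)
    (hχ : χ ∈ LX (r := r) B)
    (h : ∀ x : Wc G r, x.right = 1 → red O (omega ψ x) = red O (omega χ x)) :
    ψ ∈ LX (r := r) B := by
  haveI : Fintype (Wc G r) := Fintype.ofFinite _
  obtain ⟨b1, b2, -⟩ := blk G p r hpr O hpO B hB hPos
  by_contra hn
  have hχi := b1.irr χ hχ
  have h1 := Om_blockCoeff b1.irr hχi
  have h2 := Om_blockCoeff b1.irr hψ
  rw [if_pos hχ] at h1
  rw [if_neg hn] at h2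
  have h3 := (red_Om hχi (blockCoeff_cl b1.irr) (blockCoeff_mem b1)).2
  have h4 := (red_Om hψ (blockCoeff_cl b1.irr) (blockCoeff_mem b1)).2
  have h5 : red O (Om (blockCoeff (LX (r := r) B)) χ) =
      red O (Om (blockCoeff (LX (r := r) B)) ψ) := by
    rw [h3, h4]
    refine Finset.sum_congr rfl fun K _ => ?_
    by_cases hK : (rep K).right = 1
    · rw [h _ hK]
    · rw [b2, if_neg hK, red_zero, zero_mul, zero_mul]
  rw [h1, h2, red_one, red_zero] at h5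
  exact one_ne_zero h5

/-- from `Wc G r` to `G` -/
theorem ind_fwd (hpO : (p : ℂ) ∈ O.nonunits) (hpr : p ≠ r) (cls : S_CLS) (ccl : S_CCL)
    (blk : S_BLK) {B : Set (G → ℂ)} (hB : IsBlock O B) (hPos : Pos O B)
    {Q' : Cy r → Subgroup G} (hQ : ∀ ω, IsPGroup p (Q' ω))
    {f : ∀ ω, NN (Q' ω) → ℂ} (hf : ∀ ω, IsIrr (f ω)) {S : Wc G r → ℂ}
    (hS : ∀ x : Wc G r, x.right = 1 → ∀ n : ℕ, Nat.card {y : Wc G r // IsConj x y} =
      n * ∏ ω, Nat.card {y : G // IsConj (x.left ω) y} →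
      (r : ℂ) * S x = n * ∑ a : Cy r, ∏ ω, Ic (f ω) (x.left (a * ω)))
    (hind : ∀ χ ∈ LX (r := r) B, ∀ x : Wc G r, x.right = 1 → omega χ x - S x ∈ O.nonunits)
    (ω : Cy r) (χ : G → ℂ) (hχ : χ ∈ B) (z : G) : omega χ z - Ic (f ω) z ∈ O.nonunits := by
  haveI : Fintype (Wc G r) := Fintype.ofFinite _
  choose c hc1 hc2 using fun ω => exi hpO (hQ ω) (hf ω)
  have hirr : IsIrr (psi c) := psi_irr cls hc1
  have hag := agree hpO hpr ccl hS hc1 hc2 hirr
  obtain ⟨χ₀, hχ₀⟩ := hB.nonempty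
  have hB' := (blk G p r hpr O hpO B hB hPos).1
  have hχ' : psi (fun _ : Cy r => χ₀) ∈ LX (r := r) B := psi_mem fun _ => hχ₀
  have h1 : psi c ∈ LX (r := r) B := by
    refine mem_LX hpO hpr blk hB hPos hirr hχ' fun x hx => ?_
    obtain ⟨h2, h3⟩ := hag x hx
    rw [h3]
    exact ((red_eq_iff ((hB'.irr _ hχ').omega_mem O x) h2).mpr (hind _ hχ' x hx)).symm
  have h2 : c ω ∈ B := mem_psi cls hB.irr hc1 h1 ω
  obtain ⟨h3, h4⟩ := red_congr ((hc1 ω).omega_mem O z) (hc2 ω z)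
  rw [← red_eq_iff ((hB.irr χ hχ).omega_mem O z) h3, ← h4]
  exact hB.red_eq hχ h2 z

/-- from `G` to `Wc G r` -/
theorem ind_bwd (hpO : (p : ℂ) ∈ O.nonunits) (hpr : p ≠ r) (cls : S_CLS) (ccl : S_CCL)
    (blk : S_BLK) {B : Set (G → ℂ)} (hB : IsBlock O B) (hPos : Pos O B)
    {Q' : Cy r → Subgroup G} {f : ∀ ω, NN (Q' ω) → ℂ} {S : Wc G r → ℂ}
    (hS : ∀ x : Wc G r, x.right = 1 → ∀ n : ℕ, Nat.card {y : Wc G r // IsConj x y} =
      n * ∏ ω, Nat.card {y : G // IsConj (x.left ω) y} →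
      (r : ℂ) * S x = n * ∑ a : Cy r, ∏ ω, Ic (f ω) (x.left (a * ω)))
    (hind : ∀ ω, ∀ χ ∈ B, ∀ z : G, omega χ z - Ic (f ω) z ∈ O.nonunits)
    (χ : Wc G r → ℂ) (hχ : χ ∈ LX (r := r) B) (x : Wc G r) (hx : x.right = 1) :
    omega χ x - S x ∈ O.nonunits := by
  haveI : Fintype (Wc G r) := Fintype.ofFinite _
  obtain ⟨χ₀, hχ₀⟩ := hB.nonempty
  have hi : ∀ _ : Cy r, IsIrr χ₀ := fun _ => hB.irr χ₀ hχ₀
  have hirr : IsIrr (psi (fun _ : Cy r => χ₀)) := psi_irr cls hi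
  obtain ⟨h1, h2⟩ := agree hpO hpr ccl hS hi (fun ω x => hind ω χ₀ hχ₀ x) hirr x hx
  have hB' := (blk G p r hpr O hpO B hB hPos).1
  rw [← red_eq_iff ((hB'.irr _ hχ).omega_mem O x) h1, ← h2]
  exact hB'.red_eq hχ (psi_mem fun _ => hχ₀) x

/-- the values of the members of `LX B` outside the base group -/
lemma LX_out (hpO : (p : ℂ) ∈ O.nonunits) (ccl : S_CCL) {B : Set (G → ℂ)}
    (hB : ∀ θ ∈ B, IsIrr θ) (hPos : Pos O B) {χ : Wc G r → ℂ} (hχ : χ ∈ LX (r := r) B)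
    {x : Wc G r} (hx : x.right ≠ 1) : omega χ x ∈ O.nonunits := by
  obtain ⟨h1, h2⟩ := (ccl G r).2 x hx
  rcases hχ with ⟨f, -, -, rfl⟩ | ⟨θ, hθ, l, rfl⟩
  · rw [h1]
    exact O.nonunits.zero_mem
  · have hi := hB θ hθ
    rw [h2 θ l hi.one_ne]
    have h3 := hPos θ hθ
    have hl : ((l x.right : ℂˣ) : ℂ) ∈ O := by
      refine mem_of_isIntegral ?_
      refine ⟨Polynomial.X ^ r - 1, Polynomial.monic_X_pow_sub_C 1 (Fact.out : r.Prime).ne_zero, ?_⟩
      have h4 : ((l x.right : ℂˣ) : ℂ) ^ r = 1 := by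
        have h5 : x.right ^ r = 1 := by
          have h6 := pow_card_eq_one (x := x.right)
          rwa [card_Cy] at h6
        have h6 : (l x.right) ^ r = 1 := by rw [← map_pow, h5, map_one]
        have h7 := congrArg (fun u : ℂˣ => (u : ℂ)) h6
        simpa using h7
      simp [h4]
    have hr2 : r - 1 ≠ 0 := by
      have := (Fact.out : r.Prime).two_le
      omega
    have hom := hi.omega_mem O ((x ^ r).left 1)
    have h5 : ((Nat.card G : ℂ) / θ 1) ∈ O := nonunits_mem h3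
    have h6 : ((Nat.card G : ℂ) / θ 1) ^ (r - 1) ∈ O := pow_mem h5 _
    rw [← red_eq_zero_iff (O.mul_mem _ _ (O.mul_mem _ _ hl h6) hom),
      red_mul (O.mul_mem _ _ hl h6) hom, red_mul hl h6]
    have h7 : red O (((Nat.card G : ℂ) / θ 1) ^ (r - 1)) = 0 := by
      obtain ⟨k, hk⟩ := Nat.exists_eq_succ_of_ne_zero hr2
      rw [hk, pow_succ, red_mul (pow_mem h5 _) h5, red_eq_zero h3, mul_zero]
    rw [h7, mul_zero, zero_mul]

end

end Pool.Agent.Q154.AM
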