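import Pool.Agent.Q17.AM.Stm
import Pool.Agent.Q166.AM.TRN

/-!
# Sums over the conjugates of elements of the base group
-/

set_option autoImplicit false

open scoped Classical

noncomputable section

namespace Pool.Agent.Q154.AM

open Pool.Agent.H254R3.IN hiding NN

open Pool.Agent.Q17.WR
open Pool.Agent.Q17.AM
open Pool.Agent.Q166.AM (mul_left' inv_left' conj_left conj_right)

section

variable {G : Type} [Group G] {r : ℕ} [Fact r.Prime]

lemma card_Cy : Fintype.card (Cy r) = r := by
  rw [Fintype.card_multiplicative, ZMod.card]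

/-- conjugacy of elements of the base group -/
lemma conj_base {x y : Wc G r} (hx : x.right = 1) : IsConj x y ↔
    y.right = 1 ∧ ∃ a : Cy r, ∀ ω, IsConj (x.left (a * ω)) (y.left ω) := by
  constructor
  · intro h
    obtain ⟨t, rfl⟩ := isConj_iff.mp h
    refine ⟨by rw [conj_right, hx], t.right⁻¹, fun ω => ?_⟩
    rw [conj_left _ _ hx]
    exact isConj_iff.mpr ⟨t.left ω, rfl⟩
  · rintro ⟨hy, a, h⟩
    choose c hc using fun ω => isConj_iff.mp (h ω)
    refine isConj_iff.mpr ⟨⟨c, a⁻¹⟩, ?_⟩
    refine SemidirectProduct.ext (funext fun ω => ?_) (by rw [conj_right, hx, hy])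
    rw [conj_left _ _ hx]
    change c ω * x.left ((a⁻¹)⁻¹ * ω) * (c ω)⁻¹ = y.left ω
    rw [inv_inv, hc]

/-- the rotations which fix the classes of the components -/
def stc (x : Wc G r) : ℕ :=
  (Finset.univ.filter fun a : Cy r => ∀ ω, IsConj (x.left (a * ω)) (x.left ω)).card

/-- an element of the base group -/
def bse (m : Cy r → G) : Wc G r := ⟨m, 1⟩

lemma count_rot (x : Wc G r) (m : Cy r → G) (hx : x.right = 1) :
    (Finset.univ.filter fun a : Cy r => ∀ ω, IsConj (x.left (a * ω)) (m ω)).card =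
      if IsConj x (bse m) then stc x else 0 := by
  split_ifs with h
  · obtain ⟨-, b, hb⟩ := (conj_base hx).mp h
    unfold stc
    refine Finset.card_bij (fun a _ => a * b⁻¹) ?_ ?_ ?_
    · intro a ha
      rw [Finset.mem_filter] at ha ⊢
      refine ⟨Finset.mem_univ _, fun ω => ?_⟩
      have h1 := ha.2 (b⁻¹ * ω)
      have h2 := hb (b⁻¹ * ω)
      rw [mul_inv_cancel_left] at h2
      rw [← mul_assoc] at h1
      exact h1.trans h2.symm
    · intro a _ a' _ h
      exact mul_right_cancel h
    · intro a ha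
      rw [Finset.mem_filter] at ha
      refine ⟨a * b, ?_, mul_inv_cancel_right a b⟩
      rw [Finset.mem_filter]
      refine ⟨Finset.mem_univ _, fun ω => ?_⟩
      have h1 := ha.2 (b * ω)
      rw [← mul_assoc] at h1
      exact h1.trans (hb ω)
  · rw [Finset.card_eq_zero, Finset.filter_eq_empty_iff]
    intro a _ ha
    exact h ((conj_base hx).mpr ⟨rfl, a, ha⟩)

/-- the first form of the sum over the conjugates -/
lemma key_sum [Fintype G] [Fintype (Wc G r)] (x : Wc G r) (hx : x.right = 1)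
    (g : Cy r → G → ℂ) :
    (stc x : ℂ) * ∑ y ∈ Finset.univ.filter (fun y : Wc G r => IsConj x y), ∏ ω, g ω (y.left ω) =
      ∑ a : Cy r, ∏ ω, ∑ z ∈ Finset.univ.filter (fun z => IsConj (x.left (a * ω)) z), g ω z := by
  have h1 : ∑ y ∈ Finset.univ.filter (fun y : Wc G r => IsConj x y), ∏ ω, g ω (y.left ω) =
      ∑ m : Cy r → G, if IsConj x (bse m) then ∏ ω, g ω (m ω) else 0 := by
    rw [← Finset.sum_filter]
    refine Finset.sum_bij (fun y _ => y.left) ?_ ?_ ?_ ?_
    · intro y hy
      rw [Finset.mem_filter] at hy ⊢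
      refine ⟨Finset.mem_univ _, ?_⟩
      have h2 : bse y.left = y :=
        SemidirectProduct.ext rfl ((conj_base hx).mp hy.2).1.symm
      rw [h2]
      exact hy.2
    · intro y hy y' hy' h
      rw [Finset.mem_filter] at hy hy'
      exact SemidirectProduct.ext h
        (((conj_base hx).mp hy.2).1.trans ((conj_base hx).mp hy'.2).1.symm)
    · intro m hm
      rw [Finset.mem_filter] at hm
      exact ⟨bse m, Finset.mem_filter.mpr ⟨Finset.mem_univ _, hm.2⟩, rfl⟩
    · intro y _
      rfl
  have h2 : ∀ a : Cy r, ∏ ω, ∑ z ∈ Finset.univ.filter (fun z => IsConj (x.left (a * ω)) z), g ω z =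
      ∑ m : Cy r → G, if ∀ ω, IsConj (x.left (a * ω)) (m ω) then ∏ ω, g ω (m ω) else 0 := by
    intro a
    rw [Finset.prod_univ_sum, ← Finset.sum_filter]
    refine Finset.sum_congr ?_ fun _ _ => rfl
    ext m
    rw [Fintype.mem_piFinset, Finset.mem_filter]
    simp only [Finset.mem_filter, Finset.mem_univ, true_and]
  rw [h1, Finset.sum_congr rfl fun a _ => h2 a, Finset.sum_comm, Finset.mul_sum]
  refine Finset.sum_congr rfl fun m _ => ?_
  rw [← Finset.sum_filter, Finset.sum_const, count_rot x m hx]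
  split_ifs with h
  · rw [nsmul_eq_mul]
  · rw [mul_zero, zero_smul]

lemma card_filter_conj {A : Type} [Group A] [Fintype A] (x : A) :
    (Finset.univ.filter fun y => IsConj x y).card = Nat.card {y : A // IsConj x y} := by
  rw [Nat.card_eq_fintype_card, Fintype.card_subtype]

lemma prod_rot {M : Type} [CommMonoid M] (F : Cy r → M) (a : Cy r) :
    ∏ ω, F (a * ω) = ∏ ω, F ω :=
  Fintype.prod_equiv (Equiv.mulLeft a) _ _ fun _ => rfl

lemma sum_rot {M : Type} [AddCommMonoid M] (F : Cy r → M) (a : Cy r) :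
    ∑ b, F (b * a) = ∑ b, F b :=
  Fintype.sum_equiv (Equiv.mulRight a) _ _ fun _ => rfl

/-- the sum over the conjugates -/
theorem key [Fintype G] [Fintype (Wc G r)] (x : Wc G r) (hx : x.right = 1) (n : ℕ)
    (hn : Nat.card {y : Wc G r // IsConj x y} =
      n * ∏ ω, Nat.card {y : G // IsConj (x.left ω) y}) (g : Cy r → G → ℂ) :
    (r : ℂ) * ∑ y ∈ Finset.univ.filter (fun y : Wc G r => IsConj x y), ∏ ω, g ω (y.left ω) =
      n * ∑ a : Cy r, ∏ ω,
        ∑ z ∈ Finset.univ.filter (fun z => IsConj (x.left (a * ω)) z), g ω z := by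
  have h1 := key_sum x hx (fun _ _ => 1)
  simp only [Finset.prod_const_one, Finset.sum_const, nsmul_eq_mul, mul_one,
    card_filter_conj] at h1
  rw [hn] at h1
  have h2 : ∀ a : Cy r, ∏ ω, (Nat.card {y : G // IsConj (x.left (a * ω)) y} : ℂ) =
      ∏ ω, (Nat.card {y : G // IsConj (x.left ω) y} : ℂ) := fun a =>
    prod_rot (fun ω => (Nat.card {y : G // IsConj (x.left ω) y} : ℂ)) a
  rw [Finset.sum_congr rfl fun a _ => h2 a, Finset.sum_const, nsmul_eq_mul, Finset.card_univ] at h1
  rw [card_Cy] at h1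
  push_cast at h1
  have h4 : ∏ ω, (Nat.card {y : G // IsConj (x.left ω) y} : ℂ) ≠ 0 :=
    Finset.prod_ne_zero_iff.mpr fun ω _ => by exact_mod_cast (card_class_pos (x.left ω)).ne'
  have h5 : (stc x : ℂ) * n = r := by
    apply mul_right_cancel₀ h4
    rw [← h1]
    ring
  rw [← h5, ← key_sum x hx g]
  ring

end

end Pool.Agent.Q154.AM
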