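import Pool.Agent.Q154.AM.CaseA
import Pool.Agent.Q154.AM.CaseB
import Pool.Agent.Q162.AM.NUM

/-!
# Job NWX of project AM (helper17): the number of weights of `LX B`
-/

set_option autoImplicit false

open scoped Classical

noncomputable section

namespace Pool.Agent.Q154.AM

open Pool.Agent.H254R3.IN hiding NN
open Pool.Agent.Y63.KR
open Pool.Agent.Q17.WR
open Pool.Agent.Q17.AM
open Pool.Agent.Q17.DC

section

variable {G : Type} [Group G] [Fintype G] {p r : ℕ} [Fact p.Prime] [Fact r.Prime]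
  {O : ValuationSubring ℂ}

lemma zpow_right (t : Wc G r) (k : ℤ) : (t ^ k).right = t.right ^ k := by
  have h := map_zpow (SemidirectProduct.rightHom : Wc G r →* Cy r) t k
  exact h

/-- all components are conjugate if the normaliser is not in the base group -/
lemma all_conj {Q' : Cy r → Subgroup G} {t : Wc G r} (ht : t ∈ NN (Pw Q'))
    (h1 : t.right ≠ 1) (ω : Cy r) : (sgS G).r (Q' 1) (Q' ω) := by
  have h2 : ω ∈ Subgroup.zpowers t.right :=
    mem_zpowers_of_prime_card (p := r)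
      (by rw [Nat.card_eq_fintype_card, card_Cy]) h1
  obtain ⟨k, hk⟩ := Subgroup.mem_zpowers_iff.mp h2
  have h3 : t ^ k ∈ NN (Pw Q') := Subgroup.zpow_mem _ ht k
  have h4 := (mem_NN_Pw (t ^ k) Q').mp h3 ω
  rw [zpow_right, hk, inv_mul_cancel] at h4
  exact ⟨(t ^ k).left ω, h4⟩

/-- the contribution of a family of subgroups -/
lemma term (hpO : (p : ℂ) ∈ O.nonunits) (hpr : p ≠ r) (cls : S_CLS) (ccl : S_CCL)
    (blk : S_BLK) (num : S_NUM) {B : Set (G → ℂ)} (hB : IsBlock O B) (hPos : Pos O B)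
    (Q' : Cy r → Subgroup G) :
    (r : ℤ) * ((Nat.card (NN (Pw Q')) : ℤ) * (nwt p O (LX (r := r) B) (Pw Q') : ℤ)) =
      r * ∏ ω, ((Nat.card (NN (Q' ω)) : ℤ) * (nwt p O B (Q' ω) : ℤ)) +
      (if ∀ ω, Quotient.mk (sgS G) (Q' ω) = Quotient.mk (sgS G) (Q' 1) then
        r * ((r : ℤ) ^ 2 - 1) * ((∏ ω, (Nat.card (NN (Q' ω)) : ℤ)) * (nwt p O B (Q' 1) : ℤ))
      else 0) := by
  split_ifs with h
  · have hg : ∀ ω, ∃ g : G, conjSub g (Q' 1) = Q' ω := fun ω => Quotient.exact (h ω).symm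
    choose g hg using hg
    have h1 : Pw Q' = conjSub (bse g : Wc G r) (Pw fun _ : Cy r => Q' 1) := by
      rw [conj_Pw]
      congr 1
      funext ω
      exact (hg ω).symm
    obtain ⟨h2, h3⟩ := nwt_A hpO hpr cls ccl blk num hB hPos (Q' 1)
    have h4 : nwt p O (LX (r := r) B) (Pw Q') =
        nwt p O (LX (r := r) B) (Pw fun _ : Cy r => Q' 1) := by
      rw [h1, nwt_conj]
    have h5 : Nat.card (NN (Pw Q')) = Nat.card (NN (Pw fun _ : Cy r => Q' 1)) := by
      rw [h1, card_NN_conj]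
    have h6 : ∀ ω, Nat.card (NN (Q' ω)) = Nat.card (NN (Q' 1)) := fun ω => by
      rw [← hg ω, card_NN_conj]
    have h7 : ∀ ω, nwt p O B (Q' ω) = nwt p O B (Q' 1) := fun ω => by
      rw [← hg ω, nwt_conj]
    rw [h4, h5, h3]
    simp only [h6, h7, Finset.prod_const, Finset.card_univ, card_Cy]
    push_cast
    rw [mul_pow]
    linear_combination (r : ℤ) * (Nat.card (NN (Q' 1)) : ℤ) ^ r * h2
  · have hN : ∀ y ∈ NN (Pw Q'), y.right = 1 := by
      intro y hy
      by_contra hne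
      apply h
      intro ω
      have h1 := all_conj hy hne ω
      exact (Quotient.sound h1).symm
    obtain ⟨h2, h3⟩ := nwt_B hpO hpr cls ccl blk hB hPos hN
    rw [h2, h3, Finset.prod_mul_distrib, add_zero]
    push_cast
    ring

/-- the main computation -/
theorem nwx_aux (cls : S_CLS) (ccl : S_CCL) (blk : S_BLK) (num : S_NUM) (wpq : S_WPQ)
    (hpO : (p : ℂ) ∈ O.nonunits) (hpr : p ≠ r) {B : Set (G → ℂ)} (hB : IsBlock O B)
    (hPos : Pos O B) :
    (r : ℤ) * (nW p O (LX (r := r) B) : ℤ) =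
      (nW p O B : ℤ) ^ r + ((r : ℤ) ^ 2 - 1) * (nW p O B : ℤ) := by
  haveI : Fintype (Subgroup G) := Fintype.ofFinite _
  haveI : Fintype (Wc G r) := Fintype.ofFinite _
  haveI : Fintype (Subgroup (Wc G r)) := Fintype.ofFinite _
  haveI : Fintype (Quotient (sgS G)) := Fintype.ofFinite _
  set n : ℕ := nW p O B with hn
  set g : ℕ := Nat.card G with hg
  have h1 := nW_sum (G := Wc G r) (p := p) (O := O) (B := LX (r := r) B)
  have h2 : ∑ P : Subgroup (Wc G r), Nat.card (NN P) * nwt p O (LX (r := r) B) P =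
      ∑ Q' : Cy r → Subgroup G,
        Nat.card (NN (Pw Q')) * nwt p O (LX (r := r) B) (Pw Q') := by
    rw [← Finset.sum_image (s := (Finset.univ : Finset (Cy r → Subgroup G))) (g := Pw)
      (f := fun P => Nat.card (NN P) * nwt p O (LX (r := r) B) P) fun Q _ Q' _ h => Pw_inj h]
    symm
    refine Finset.sum_subset (Finset.subset_univ _) fun P _ hP => ?_
    have h3 : IsEmpty {φ : NN P → ℂ // IsWt p O (LX (r := r) B) P φ} := by
      constructor
      rintro ⟨φ, w⟩
      obtain ⟨Q', rfl⟩ := wpq G p r hpr O hpO (LX (r := r) B) P φ w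
      exact hP (Finset.mem_image_of_mem _ (Finset.mem_univ _))
    have h4 : nwt p O (LX (r := r) B) P = 0 := Nat.card_of_isEmpty
    rw [h4, mul_zero]
  rw [h2] at h1
  have h3 : ((Nat.card (Wc G r) : ℤ) * (nW p O (LX (r := r) B) : ℤ)) =
      ∑ Q' : Cy r → Subgroup G,
        (Nat.card (NN (Pw Q')) : ℤ) * (nwt p O (LX (r := r) B) (Pw Q') : ℤ) := by
    exact_mod_cast h1
  have h4 : (r : ℤ) * ((Nat.card (Wc G r) : ℤ) * (nW p O (LX (r := r) B) : ℤ)) =
      r * ∑ Q' : Cy r → Subgroup G,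
        ∏ ω, ((Nat.card (NN (Q' ω)) : ℤ) * (nwt p O B (Q' ω) : ℤ)) +
      r * ((r : ℤ) ^ 2 - 1) * ∑ Q' : Cy r → Subgroup G,
        (if ∀ ω, Quotient.mk (sgS G) (Q' ω) = Quotient.mk (sgS G) (Q' 1) then
          ((∏ ω, (Nat.card (NN (Q' ω)) : ℤ)) * (nwt p O B (Q' 1) : ℤ)) else 0) := by
    rw [h3, Finset.mul_sum, Finset.mul_sum, Finset.mul_sum, ← Finset.sum_add_distrib]
    refine Finset.sum_congr rfl fun Q' _ => ?_
    rw [term hpO hpr cls ccl blk num hB hPos Q', mul_ite, mul_zero]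
  -- the first sum
  have h5 : ∑ Q' : Cy r → Subgroup G,
      ∏ ω, ((Nat.card (NN (Q' ω)) : ℤ) * (nwt p O B (Q' ω) : ℤ)) = ((g : ℤ) * n) ^ r := by
    have h6 := nW_sum (G := G) (p := p) (O := O) (B := B)
    have h7 : ∑ P : Subgroup G, ((Nat.card (NN P) : ℤ) * (nwt p O B P : ℤ)) = (g : ℤ) * n := by
      exact_mod_cast h6.symm
    have h8 := Finset.prod_univ_sum (fun _ : Cy r => (Finset.univ : Finset (Subgroup G)))
      (fun _ P => ((Nat.card (NN P) : ℤ) * (nwt p O B P : ℤ)))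
    rw [Fintype.piFinset_univ, Finset.prod_const, Finset.card_univ, card_Cy, h7] at h8
    exact h8.symm
  -- the second sum
  have h6 : ∑ Q' : Cy r → Subgroup G,
      (if ∀ ω, Quotient.mk (sgS G) (Q' ω) = Quotient.mk (sgS G) (Q' 1) then
        ((∏ ω, (Nat.card (NN (Q' ω)) : ℤ)) * (nwt p O B (Q' 1) : ℤ)) else 0) =
      (g : ℤ) ^ r * n := by
    have h7 : ∀ Q' : Cy r → Subgroup G,
        (if ∀ ω, Quotient.mk (sgS G) (Q' ω) = Quotient.mk (sgS G) (Q' 1) then
          ((∏ ω, (Nat.card (NN (Q' ω)) : ℤ)) * (nwt p O B (Q' 1) : ℤ)) else 0) =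
        ∑ c : Quotient (sgS G), (nwt p O B c.out : ℤ) * ∏ ω, ((Nat.card (NN (Q' ω)) : ℤ) *
          (if Quotient.mk (sgS G) (Q' ω) = c then 1 else 0)) := by
      intro Q'
      rw [Finset.sum_eq_single (Quotient.mk (sgS G) (Q' 1))]
      · split_ifs with h
        · have h8 : nwt p O B (Quotient.mk (sgS G) (Q' 1)).out = nwt p O B (Q' 1) :=
            nwt_rel (Quotient.exact (Quotient.out_eq (Quotient.mk (sgS G) (Q' 1))))
          rw [h8, mul_comm]
          congr 1
          exact Finset.prod_congr rfl fun ω _ => by rw [if_pos (h ω), mul_one]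
        · push Not at h
          obtain ⟨ω, hω⟩ := h
          rw [Finset.prod_eq_zero (Finset.mem_univ ω) (by rw [if_neg hω, mul_zero]), mul_zero]
      · intro c _ hc
        rw [Finset.prod_eq_zero (Finset.mem_univ (1 : Cy r))
          (by rw [if_neg (Ne.symm hc), mul_zero]), mul_zero]
      · intro h
        exact absurd (Finset.mem_univ _) h
    rw [Finset.sum_congr rfl fun Q' _ => h7 Q', Finset.sum_comm]
    have h8 : ∀ c : Quotient (sgS G), ∑ Q' : Cy r → Subgroup G,
        (nwt p O B c.out : ℤ) * ∏ ω, ((Nat.card (NN (Q' ω)) : ℤ) *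
          (if Quotient.mk (sgS G) (Q' ω) = c then 1 else 0)) =
        (nwt p O B c.out : ℤ) * (g : ℤ) ^ r := by
      intro c
      rw [← Finset.mul_sum]
      congr 1
      have h9 := Finset.prod_univ_sum (fun _ : Cy r => (Finset.univ : Finset (Subgroup G)))
        (fun _ P => ((Nat.card (NN P) : ℤ) * (if Quotient.mk (sgS G) P = c then 1 else 0)))
      have h10 : ∑ P : Subgroup G, ((Nat.card (NN P) : ℤ) *
          (if Quotient.mk (sgS G) P = c then 1 else 0)) = g := by
        have h11 := sum_class c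
        have h12 := congrArg (fun m : ℕ => (m : ℤ)) h11
        push_cast at h12
        exact h12
      rw [Fintype.piFinset_univ, Finset.prod_const, Finset.card_univ, card_Cy, h10] at h9
      exact h9.symm
    rw [Finset.sum_congr rfl fun c _ => h8 c, ← Finset.sum_mul]
    have h9 := nW_classes (G := G) (p := p) (O := O) (B := B)
    have h10 : ∑ c : Quotient (sgS G), (nwt p O B c.out : ℤ) = n := by
      rw [hn, h9]
      push_cast
      rfl
    rw [h10, mul_comm]
  rw [h5, h6, card_Wc, Finset.prod_const, Finset.card_univ, card_Cy] at h4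
  have hr0 : (r : ℤ) ≠ 0 := by exact_mod_cast (Fact.out : r.Prime).ne_zero
  have hg0 : (g : ℤ) ≠ 0 := by
    have : 0 < Nat.card G := Nat.card_pos
    exact_mod_cast this.ne'
  have h7 : (r : ℤ) * (g : ℤ) ^ r ≠ 0 := mul_ne_zero hr0 (pow_ne_zero _ hg0)
  apply mul_left_cancel₀ h7
  push_cast at h4
  rw [mul_pow] at h4
  linear_combination h4

end

/-- the number of weights, with the count `S_NUM` of the members of `LX X` as a hypothesis -/
theorem t_NWX' : S_CLS → S_CCL → S_BLK → S_NUM → S_WPQ → S_NWX := by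
  intro cls ccl blk num wpq G _ _ p r _ _ hpr O hpO B hB hPos
  exact nwx_aux cls ccl blk num wpq hpO hpr hB hPos

/-- **NWX** -/
theorem t_NWX : S_CLS → S_CCL → S_BLK → S_WPQ → S_NWX := by
  intro cls ccl blk wpq
  exact t_NWX' cls ccl blk (Pool.Agent.Q162.AM.t_NUM cls) wpq

end Pool.Agent.Q154.AM
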