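import Pool.Agent.Q154.AM.Ind
import Pool.Agent.Q154.AM.WPQ
import Pool.Agent.Y63.AWC.Deg

/-!
# Weights of `LX B` and weights of `B`: the general criterion
-/

set_option autoImplicit false

open scoped Classical

noncomputable section

namespace Pool.Agent.Q154.AM

open Pool.Agent.H254R3.IN hiding NN
open Pool.Agent.Y63.KR
open Pool.Agent.Q17.WR
open Pool.Agent.Q17.AM
open Pool.Agent.Q17.DC
open Pool.Agent.Q166.AM (mul_left' inv_left' conj_left conj_right)

/-- degrees of characters with `Q` in the kernel -/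
lemma deg_le {L : Type} [Group L] [Finite L] (p : ℕ) {Q : Subgroup L} (hQ : Q.Normal)
    {θ : L → ℂ} (hθ : IsIrr θ) (hker : ∀ x ∈ Q, θ x = θ 1) {n : ℕ} (hn : (n : ℂ) = θ 1) :
    (Nat.card Q).factorization p + n.factorization p ≤ (Nat.card L).factorization p := by
  haveI : Fintype L := Fintype.ofFinite L
  haveI := hQ
  obtain ⟨θ', h1, h2⟩ := Pool.Agent.Q176.DC.DZV.quot_char Q hθ hker
  haveI : Fintype (L ⧸ Q) := Fintype.ofFinite _
  have h3 : n ∣ Nat.card (L ⧸ Q) := by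
    refine Pool.Agent.Y63.AWC.deg_dvd (G := L ⧸ Q) h1 ?_
    rw [hn, ← h2 1]
    rfl
  have hn0 : n ≠ 0 := by
    rintro rfl
    apply hθ.one_ne
    rw [← hn]
    simp
  have h4 : n.factorization p ≤ (Nat.card (L ⧸ Q)).factorization p :=
    (Nat.factorization_le_iff_dvd hn0 Nat.card_pos.ne').mpr h3 p
  rw [Subgroup.card_eq_card_quotient_mul_card_subgroup Q,
    Nat.factorization_mul Nat.card_pos.ne' Nat.card_pos.ne', Finsupp.add_apply]
  omega

/-- the same for the normaliser of `Q` -/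
lemma deg_le' {G : Type} [Group G] [Finite G] (p : ℕ) {Q : Subgroup G} {θ : NN Q → ℂ}
    (hθ : IsIrr θ) (hker : ∀ x : NN Q, (x : G) ∈ Q → θ x = θ 1) {n : ℕ} (hn : (n : ℂ) = θ 1) :
    (Nat.card Q).factorization p + n.factorization p ≤ (Nat.card (NN Q)).factorization p := by
  have h1 := deg_le p (Q := Q.subgroupOf (NN Q)) Subgroup.normal_in_normalizer hθ
    (fun x hx => hker x hx) hn
  have h2 : Nat.card (Q.subgroupOf (NN Q)) = Nat.card Q :=
    Nat.card_congr (Subgroup.subgroupOfEquivOfLe Subgroup.le_normalizer).toEquiv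
  rwa [h2] at h1

section

variable {G : Type} [Group G] {p r : ℕ} [Fact r.Prime]

lemma fac_prod (p : ℕ) (n : Cy r → ℕ) (hn : ∀ ω, n ω ≠ 0) :
    (∏ ω, n ω).factorization p = ∑ ω, (n ω).factorization p := by
  rw [Nat.factorization_prod fun ω _ => hn ω, Finsupp.finset_sum_apply]

/-- the order of a product of subgroups -/
lemma card_Pw [Finite G] (Q : Cy r → Subgroup G) :
    Nat.card (Pw Q) = ∏ ω, Nat.card (Q ω) := by
  rw [← Nat.card_pi]
  refine Nat.card_congr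
    { toFun := fun x => fun ω => ⟨x.1.left ω, x.2.2 ω⟩
      invFun := fun m => ⟨⟨fun ω => (m ω : G), 1⟩, rfl, fun ω => (m ω).2⟩
      left_inv := ?_
      right_inv := fun m => rfl }
  rintro ⟨x, hx, hx'⟩
  exact Subtype.ext (SemidirectProduct.ext rfl hx.symm)

/-- one component -/
def sg (ω₀ : Cy r) (g : G) : Wc G r := ⟨Pi.mulSingle ω₀ g, 1⟩

lemma sg_mem {Q : Cy r → Subgroup G} {ω₀ : Cy r} {g : G} : sg ω₀ g ∈ Pw Q ↔ g ∈ Q ω₀ := by
  rw [mem_Pw]
  constructor
  · intro h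
    have h1 := h.2 ω₀
    change (Pi.mulSingle ω₀ g : Cy r → G) ω₀ ∈ Q ω₀ at h1
    rwa [Pi.mulSingle_eq_same] at h1
  · intro h
    refine ⟨rfl, fun ω => ?_⟩
    change (Pi.mulSingle ω₀ g : Cy r → G) ω ∈ Q ω
    by_cases h1 : ω = ω₀
    · subst h1
      rw [Pi.mulSingle_eq_same]
      exact h
    · rw [Pi.mulSingle_eq_of_ne h1]
      exact (Q ω).one_mem

lemma Pw_inj {Q Q' : Cy r → Subgroup G} (h : Pw Q = Pw Q') : Q = Q' := by
  funext ω
  ext g
  rw [← sg_mem (Q := Q), ← sg_mem (Q := Q'), h]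

lemma isp_of_Pw {Q : Cy r → Subgroup G} (h : IsPGroup p (Pw Q)) (ω : Cy r) :
    IsPGroup p (Q ω) := by
  rintro ⟨g, hg⟩
  obtain ⟨k, hk⟩ := h ⟨sg ω g, sg_mem.mpr hg⟩
  refine ⟨k, Subtype.ext ?_⟩
  have h1 : (sg ω g : Wc G r) ^ p ^ k = 1 := congrArg Subtype.val hk
  have h2 := (base_pow (x := sg ω g) rfl (p ^ k)).2 ω
  rw [h1] at h2
  change (1 : G) = ((Pi.mulSingle ω g : Cy r → G) ω) ^ p ^ k at h2
  rw [Pi.mulSingle_eq_same] at h2
  exact h2.symm

/-- conjugates of products -/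
lemma conj_Pw (t : Wc G r) (Q : Cy r → Subgroup G) :
    conjSub t (Pw Q) = Pw fun ω => conjSub (t.left ω) (Q (t.right⁻¹ * ω)) := by
  ext x
  rw [mem_conjSub, mem_Pw, mem_Pw]
  have h1 : (t⁻¹ * x * t).right = x.right := by
    have h2 := conj_right t⁻¹ x
    rwa [inv_inv] at h2
  rw [h1]
  refine and_congr_right fun hx => ?_
  have h2 : ∀ ω, (t⁻¹ * x * t).left ω = (t.left (t.right * ω))⁻¹ * x.left (t.right * ω) *
      t.left (t.right * ω) := by
    intro ω
    have h3 := conj_left t⁻¹ x hx ω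
    rw [inv_inv] at h3
    rw [h3, inv_left', SemidirectProduct.inv_right, inv_inv, inv_inv]
  constructor
  · intro h ω
    have h3 := h (t.right⁻¹ * ω)
    rw [h2, mul_inv_cancel_left] at h3
    rw [mem_conjSub]
    exact h3
  · intro h ω
    have h3 := h (t.right * ω)
    rw [mem_conjSub, inv_mul_cancel_left] at h3
    rw [h2]
    exact h3

lemma mem_NN_Pw (t : Wc G r) (Q : Cy r → Subgroup G) :
    t ∈ NN (Pw Q) ↔ ∀ ω, conjSub (t.left ω) (Q (t.right⁻¹ * ω)) = Q ω := by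
  change t ∈ Subgroup.normalizer (Pw Q : Set (Wc G r)) ↔ _
  rw [← conjSub_eq_iff, conj_Pw]
  constructor
  · intro h ω
    exact congrFun (Pw_inj h) ω
  · intro h
    congr 1
    exact funext h

lemma mem_NN_base {t : Wc G r} (ht : t.right = 1) (Q : Cy r → Subgroup G) :
    t ∈ NN (Pw Q) ↔ ∀ ω, t.left ω ∈ NN (Q ω) := by
  rw [mem_NN_Pw, ht]
  refine forall_congr' fun ω => ?_
  rw [inv_one, one_mul, conjSub_eq_iff]

variable [Fact p.Prime] [Fintype G] {O : ValuationSubring ℂ}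

/-- **the general criterion** -/
theorem wt_iff (hpO : (p : ℂ) ∈ O.nonunits) (hpr : p ≠ r) (cls : S_CLS) (ccl : S_CCL)
    (blk : S_BLK) {B : Set (G → ℂ)} (hB : IsBlock O B) (hPos : Pos O B)
    {Q' : Cy r → Subgroup G} {φ : NN (Pw Q') → ℂ} (hφ : IsIrr φ)
    {f : ∀ ω, NN (Q' ω) → ℂ} (hf : ∀ ω, IsIrr (f ω)) {k k' : ℕ} (hk : ¬ p ∣ k) (hk' : ¬ p ∣ k')
    (hdeg : φ 1 = k * ∏ ω, f ω 1)
    (hcard : Nat.card (NN (Pw Q')) = k' * ∏ ω, Nat.card (NN (Q' ω)))
    (hker : (∀ x : NN (Pw Q'), (x : Wc G r) ∈ Pw Q' → φ x = φ 1) ↔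
      ∀ ω, ∀ x : NN (Q' ω), (x : G) ∈ Q' ω → f ω x = f ω 1)
    (hS : ∀ x : Wc G r, x.right = 1 → ∀ n : ℕ, Nat.card {y : Wc G r // IsConj x y} =
      n * ∏ ω, Nat.card {y : G // IsConj (x.left ω) y} →
      (r : ℂ) * Ic φ x = n * ∑ a : Cy r, ∏ ω, Ic (f ω) (x.left (a * ω)))
    (hR : (∀ ω, IsWt p O B (Q' ω) (f ω)) → ∀ x : Wc G r, x.right ≠ 1 →
      Ic φ x ∈ O.nonunits) :
    IsWt p O (LX (r := r) B) (Pw Q') φ ↔ ∀ ω, IsWt p O B (Q' ω) (f ω) := by
  choose d hd0 hd using fun ω => (hf ω).deg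
  have hd0' : ∀ ω, d ω ≠ 0 := fun ω => (hd0 ω).ne'
  have hk0 : k ≠ 0 := fun h => hk (by rw [h]; exact dvd_zero p)
  have hk0' : k' ≠ 0 := fun h => hk' (by rw [h]; exact dvd_zero p)
  have hφ1 : ((k * ∏ ω, d ω : ℕ) : ℂ) = φ 1 := by
    rw [hdeg]
    push_cast
    congr 1
    exact Finset.prod_congr rfl fun ω _ => hd ω
  have hv1 : (k * ∏ ω, d ω).factorization p = ∑ ω, (d ω).factorization p := by
    rw [Nat.factorization_mul hk0 (Finset.prod_ne_zero_iff.mpr fun ω _ => hd0' ω),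
      Finsupp.add_apply, fac_prod p d hd0', Nat.factorization_eq_zero_of_not_dvd hk, zero_add]
  have hv2 : (Nat.card (NN (Pw Q'))).factorization p =
      ∑ ω, (Nat.card (NN (Q' ω))).factorization p := by
    rw [hcard, Nat.factorization_mul hk0' (Finset.prod_ne_zero_iff.mpr fun ω _ =>
      Nat.card_pos.ne'), Finsupp.add_apply, fac_prod p _ fun ω => Nat.card_pos.ne',
      Nat.factorization_eq_zero_of_not_dvd hk', zero_add]
  have hv3 : (Nat.card (Pw Q')).factorization p = ∑ ω, (Nat.card (Q' ω)).factorization p := by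
    rw [card_Pw, fac_prod p _ fun ω => Nat.card_pos.ne']
  constructor
  · intro w
    have hQ := isp_of_Pw w.isp
    have hkr := hker.mp w.ker
    have hind := ind_fwd hpO hpr cls ccl blk hB hPos hQ hf hS
      (fun χ hχ x _ => w.ind χ hχ x)
    obtain ⟨n, hn1, hn2⟩ := w.defect
    have hn3 : n = k * ∏ ω, d ω := by
      have h1 := hn1.trans hφ1.symm
      exact_mod_cast h1
    rw [hn3, hv1, hv3] at hn2
    have hv2' : (Nat.card (Subgroup.normalizer (Pw Q' : Set (Wc G r)))).factorization p =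
      ∑ ω, (Nat.card (NN (Q' ω))).factorization p := hv2
    rw [hv2', ← Finset.sum_add_distrib] at hn2
    have hle : ∀ ω ∈ (Finset.univ : Finset (Cy r)), (Nat.card (Q' ω)).factorization p +
        (d ω).factorization p ≤ (Nat.card (NN (Q' ω))).factorization p := fun ω _ =>
      deg_le' p (hf ω) (hkr ω) (hd ω)
    have heq := (Finset.sum_eq_sum_iff_of_le hle).mp hn2.symm
    intro ω
    exact ⟨hQ ω, hf ω, hkr ω, ⟨d ω, hd ω, (heq ω (Finset.mem_univ ω)).symm⟩, hind ω⟩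
  · intro w
    refine ⟨Pw_isp fun ω => (w ω).isp, hφ, hker.mpr fun ω => (w ω).ker,
      ⟨k * ∏ ω, d ω, hφ1, ?_⟩, ?_⟩
    · rw [hv1, hv3, ← Finset.sum_add_distrib]
      refine hv2.trans (Finset.sum_congr rfl fun ω _ => ?_)
      obtain ⟨n, hn1, hn2⟩ := (w ω).defect
      have hn3 : n = d ω := by
        have h1 := hn1.trans (hd ω).symm
        exact_mod_cast h1
      rw [hn3] at hn2
      exact hn2
    · intro χ hχ x
      by_cases hx : x.right = 1
      · exact ind_bwd hpO hpr cls ccl blk hB hPos hS (fun ω => (w ω).ind) χ hχ x hx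
      · have h1 := LX_out hpO ccl hB.irr hPos hχ hx
        have h2 := hR w x hx
        have hO1 := nonunits_mem h1
        have hO2 := nonunits_mem h2
        change omega χ x - Ic φ x ∈ O.nonunits
        rw [← red_eq_iff hO1 hO2, red_eq_zero h1, red_eq_zero h2]

end

end Pool.Agent.Q154.AM
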